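import Mathlib

/-! The Hamiltonian-cycle gadget array: cells of size 10 x 10, cell types, masks.

Bit `10 * dy + dx` of a mask belongs to the local position `(dx, dy)`, `0 ≤ dx, dy ≤ 9`; for edge masks
it is the edge from `(dx, dy)` to the right (`H` masks) or up (`V` masks). -/

namespace Pool.Agent.Helper38.ELP

/-- Cell types: empty, crossing, bends (named by the two sides they join: left, right, top, bottom),
horizontal and vertical straight ladders. -/
inductive Ty
  | E | X | LT | RB | RT | LB | Hs | Vs
  deriving DecidableEq

instance : Fintype Ty :=
  ⟨{.E, .X, .LT, .RB, .RT, .LB, .Hs, .Vs}, by intro t; cases t <;> decide⟩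

/-- The type of the cell `(I, J)` in the array with parameter `N` (even). -/
def ty (N I J : ℕ) : Ty :=
  if N + 1 < I ∨ N + 1 < J then .E
  else if I = 0 then (if J % 2 = 0 then .RT else .RB)
  else if J = N + 1 then (if I % 2 = 0 then .RB else .LB)
  else if I = N + 1 then (if J = 0 then .LT else .Vs)
  else if J = 0 then .Hs
  else if I < J then .X
  else if I = J then .LT
  else .E

/-- Does the cell type have a left side? -/
def hasL : Ty → Bool
  | .X => true | .LT => true | .LB => true | .Hs => true | _ => false
/-- Does the cell type have a right side? -/
def hasR : Ty → Bool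
  | .X => true | .RB => true | .RT => true | .Hs => true | _ => false
/-- Does the cell type have a top side? -/
def hasT : Ty → Bool
  | .X => true | .LT => true | .RT => true | .Vs => true | _ => false
/-- Does the cell type have a bottom side? -/
def hasB : Ty → Bool
  | .X => true | .RB => true | .LB => true | .Vs => true | _ => false

/-- vertices present -/
def presM : Ty → ℕ
  | .E => 0
  | .X => 7434900881168223788634995775
  | .LT => 7434900881103984759512505344
  | .RB => 1072691206
  | .RT => 7434900881103984760577849344
  | .LB => 7347206
  | .Hs => 1073740800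
  | .Vs => 7434900881103984759511455750

/-- allowed horizontal edges -/
def alH : Ty → ℕ
  | .E => 0
  | .X => 2478300293731737478461647901
  | .LT => 2478300293701328253171534848
  | .RB => 1072691202
  | .RT => 2478300293701328254241077248
  | .LB => 3148802
  | .Hs => 1073740800
  | .Vs => 2478300293701328253170485250

/-- allowed vertical edges -/
def alV : Ty → ℕ
  | .E => 0
  | .X => 7434900881104047486495845423
  | .LT => 7434900881103984759511456768
  | .RB => 1046534
  | .RT => 7434900881103984759512496128
  | .LB => 7174
  | .Hs => 1047552
  | .Vs => 7434900881103984759511455750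

/-- forced horizontal edges -/
def foH : Ty → ℕ
  | .E => 0
  | .X => 2478300293718216749623543833
  | .LT => 2478300293701328253168388096
  | .RB => 2097154
  | .RT => 2478300293701328253168388096
  | .LB => 2097154
  | .Hs => 0
  | .Vs => 2478300293701328253170485250

/-- forced vertical edges -/
def foV : Ty → ℕ
  | .E => 0
  | .X => 49512388165669
  | .LT => 5120
  | .RB => 1042432
  | .RT => 1042432
  | .LB => 5120
  | .Hs => 1047552
  | .Vs => 0

/-- horizontal edges used in the state with vertical bit `v` and horizontal bit `h` -/
def stH : Ty → Bool → Bool → ℕ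
  | .E, false, false => 0
  | .E, false, true => 0
  | .E, true, false => 0
  | .E, true, true => 0
  | .X, false, false => 2478300293722721460931962909
  | .X, false, true => 2478300293722730268128013341
  | .X, true, false => 2478300293727232756066986009
  | .X, true, true => 2478300293727232751047100441
  | .LT, false, false => 2478300293701328253169436672
  | .LT, false, true => 0
  | .LT, true, false => 0
  | .LT, true, true => 2478300293701328253170486272
  | .RB, false, false => 359311362
  | .RB, false, true => 0
  | .RB, true, false => 0
  | .RB, true, true => 715476994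
  | .RT, false, false => 0
  | .RT, false, true => 2478300293701328253883865088
  | .RT, true, false => 2478300293701328253525600256
  | .RT, true, true => 0
  | .LB, false, false => 0
  | .LB, false, true => 2098178
  | .LB, true, false => 3147778
  | .LB, true, true => 0
  | .Hs, false, false => 358262784
  | .Hs, false, true => 715478016
  | .Hs, true, false => 358262784
  | .Hs, true, true => 715478016
  | .Vs, false, false => 2478300293701328253170485250
  | .Vs, false, true => 2478300293701328253170485250
  | .Vs, true, false => 2478300293701328253170485250
  | .Vs, true, true => 2478300293701328253170485250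

/-- vertical edges used in the state with vertical bit `v` and horizontal bit `h` -/
def stV : Ty → Bool → Bool → ℕ
  | .E, false, false => 0
  | .E, false, true => 0
  | .E, true, false => 0
  | .E, true, true => 0
  | .X, false, false => 2480718147646465449939396645
  | .X, false, true => 2480718147646465424163282981
  | .X, true, false => 4954182733457631566142324783
  | .X, true, true => 4954182733457631566158062639
  | .LT, false, false => 2480718147646402719758949376
  | .LT, false, true => 0
  | .LT, true, false => 0
  | .LT, true, true => 4954182733457582039752512512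
  | .RB, false, false => 1042436
  | .RB, false, true => 0
  | .RB, true, false => 0
  | .RB, true, true => 1046530
  | .RT, false, false => 0
  | .RT, false, true => 2480718147646402719759984640
  | .RT, true, false => 4954182733457582039753553920
  | .RT, true, true => 0
  | .LB, false, false => 0
  | .LB, false, true => 7172
  | .LB, true, false => 5122
  | .LB, true, true => 0
  | .Hs, false, false => 1047552
  | .Hs, false, true => 1047552
  | .Hs, true, false => 1047552
  | .Hs, true, true => 1047552
  | .Vs, false, false => 2480718147646402719758944260
  | .Vs, false, true => 2480718147646402719758944260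
  | .Vs, true, false => 4954182733457582039752511490
  | .Vs, true, true => 4954182733457582039752511490

/-- Which states exist. -/
def valid : Ty → Bool → Bool → Bool
  | .LT, v, h => v == h
  | .RB, v, h => v == h
  | .RT, v, h => v != h
  | .LB, v, h => v != h
  | _, _, _ => true

/-- Read the local bit of a global position `(x, y)` in a mask depending on the cell type. -/
def rd (m : Ty → ℕ) (N x y : ℕ) : Bool := (m (ty N (x / 10) (y / 10))).testBit (10 * (y % 10) + x % 10)

/-- Is `(x, y)` a vertex? -/
def pres (N x y : ℕ) : Bool := rd presM N x y

/-- The vertex set. -/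
def Vset (N : ℕ) : Finset (ℕ × ℕ) :=
  (Finset.range (10 * (N + 2)) ×ˢ Finset.range (10 * (N + 2))).filter fun p => pres N p.1 p.2 = true

/-- Bit of wire `J` (row or column index `J`), `b 1, …, b M` being the free bits. -/
def wbit (b : ℕ → Bool) (J : ℕ) : Bool := if J % 2 = 0 then !(b (J / 2)) else b (J / 2)

/-- Vertical bit of the cell `(I, J)`. -/
def vb (b : ℕ → Bool) (I J : ℕ) : Bool := if I = 0 then b (J / 2) else wbit b I

/-- Horizontal bit of the cell `(I, J)`. -/
def hb (N : ℕ) (b : ℕ → Bool) (I J : ℕ) : Bool := if J = N + 1 then !(b (I / 2)) else wbit b J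

/-- The horizontal edge from `(x, y)` to `(x + 1, y)` is used in the configuration of `b`. -/
def uH (N : ℕ) (b : ℕ → Bool) (x y : ℕ) : Bool :=
  (stH (ty N (x / 10) (y / 10)) (vb b (x / 10) (y / 10)) (hb N b (x / 10) (y / 10))).testBit
    (10 * (y % 10) + x % 10)

/-- The vertical edge from `(x, y)` to `(x, y + 1)` is used in the configuration of `b`. -/
def uV (N : ℕ) (b : ℕ → Bool) (x y : ℕ) : Bool :=
  (stV (ty N (x / 10) (y / 10)) (vb b (x / 10) (y / 10)) (hb N b (x / 10) (y / 10))).testBit
    (10 * (y % 10) + x % 10)

/-- Two vertices are joined by a used edge. -/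
def adjU (uh uv : ℕ → ℕ → Bool) (p q : ℕ × ℕ) : Prop :=
  (q = (p.1 + 1, p.2) ∧ uh p.1 p.2 = true) ∨ (p = (q.1 + 1, q.2) ∧ uh q.1 q.2 = true) ∨
  (q = (p.1, p.2 + 1) ∧ uv p.1 p.2 = true) ∨ (p = (q.1, q.2 + 1) ∧ uv q.1 q.2 = true)

/-- The number of used edges at `(x, y)`. -/
def degU (uh uv : ℕ → ℕ → Bool) (x y : ℕ) : ℕ :=
  (uh x y).toNat + (uv x y).toNat + (if x = 0 then 0 else (uh (x - 1) y).toNat) +
    (if y = 0 then 0 else (uv x (y - 1)).toNat)

/-- Edge usage of a Hamiltonian cycle on `Vset N` which uses only allowed edges and all forced
edges. -/
structure Good (N : ℕ) (uh uv : ℕ → ℕ → Bool) : Prop where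
  alwH : ∀ x y, uh x y = true → rd alH N x y = true
  alwV : ∀ x y, uv x y = true → rd alV N x y = true
  frcH : ∀ x y, rd foH N x y = true → uh x y = true
  frcV : ∀ x y, rd foV N x y = true → uv x y = true
  deg : ∀ x y, pres N x y = true → degU uh uv x y = 2
  nocyc : ∀ S : Finset (ℕ × ℕ), S.Nonempty → S ⊂ Vset N → ∃ p ∈ S, ∃ q, q ∉ S ∧ adjU uh uv p q

end Pool.Agent.Helper38.ELP
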