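import Mathlib
import Pool.Agent.Helper52.ETSP.Defs
import Pool.Agent.Helper38.ELP.Grid

/-! Definitions and exact module statements for the lower bound on linear programs that solve
Euclidean TSP. Every module proves one of the `Prop`s named `spec...` below. -/

namespace Pool.Agent.Helper38.ELP

open Pool.Agent.Helper52.ETSP (edist)

/-- Exact Euclidean length of the closed tour which visits the points in the order
`σ 0, σ 1, ..., σ (n-1)` and returns to `σ 0`. -/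
noncomputable def tourLen {n : ℕ} (P : Fin n → ℤ × ℤ) (σ : Equiv.Perm (Fin n)) : ℝ :=
  ∑ i, edist (P (σ i)) (P (σ (finRotate n i)))

/-- A system of `r` linear inequalities and `s` linear equations in `d` real unknowns. -/
structure LP (d r s : ℕ) where
  A : Fin r → Fin d → ℝ
  β : Fin r → ℝ
  E : Fin s → Fin d → ℝ
  γ : Fin s → ℝ

/-- The points of the polyhedron. -/
def LP.Feasible {d r s : ℕ} (L : LP d r s) (x : Fin d → ℝ) : Prop :=
  (∀ k, ∑ i, L.A k i * x i ≤ L.β k) ∧ ∀ k, ∑ i, L.E k i * x i = L.γ k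

/-- The polyhedron of `L` solves Euclidean TSP for `n` distinct points of `{0, ..., B}²` up to the
additive error `δ`: every tour `σ` is represented by a feasible point `y σ`, and every placement `P`
of the points has an affine objective whose value at every `y σ` is the length of the tour `σ` up to
`δ`, and whose value on the whole polyhedron is at least the length of a shortest tour minus `δ`. -/
def LP.SolvesTSP {d r s : ℕ} (L : LP d r s) (n B : ℕ) (δ : ℝ) : Prop :=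
  ∃ y : Equiv.Perm (Fin n) → Fin d → ℝ, (∀ σ, L.Feasible (y σ)) ∧
    ∀ P : Fin n → ℤ × ℤ, Function.Injective P →
      (∀ i, 0 ≤ (P i).1 ∧ (P i).1 ≤ B ∧ 0 ≤ (P i).2 ∧ (P i).2 ≤ B) →
      ∃ (c : Fin d → ℝ) (c₀ : ℝ),
        (∀ σ, |c₀ + ∑ i, c i * y σ i - tourLen P σ| ≤ δ) ∧
        ∀ x, L.Feasible x → ∃ σ, tourLen P σ - δ ≤ c₀ + ∑ i, c i * x i

/-- The two points are at distance one (so the segment is horizontal or vertical). -/
def UnitStep (p q : ℤ × ℤ) : Prop := (p.1 - q.1) ^ 2 + (p.2 - q.2) ^ 2 = 1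

/-- All steps of the tour have length one. -/
def UnitTour {n : ℕ} (pos : Fin n → ℤ × ℤ) (σ : Equiv.Perm (Fin n)) : Prop :=
  ∀ i, UnitStep (pos (σ i)) (pos (σ (finRotate n i)))

/-- Weight of the unit edge `pq`: `wH x y` on the edge from `(x, y)` to `(x + 1, y)` and `wV x y` on
the edge from `(x, y)` to `(x, y + 1)`. -/
def ew (wH wV : ℤ → ℤ → ℤ) (p q : ℤ × ℤ) : ℤ :=
  if q = (p.1 + 1, p.2) then wH p.1 p.2
  else if p = (q.1 + 1, q.2) then wH q.1 q.2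
  else if q = (p.1, p.2 + 1) then wV p.1 p.2
  else if p = (q.1, q.2 + 1) then wV q.1 q.2
  else 0

/-- Total weight of a tour. -/
def tourW {n : ℕ} (wH wV : ℤ → ℤ → ℤ) (pos : Fin n → ℤ × ℤ) (σ : Equiv.Perm (Fin n)) : ℤ :=
  ∑ i, ew wH wV (pos (σ i)) (pos (σ (finRotate n i)))

/-! ### The main modules -/

/-- A: affine Farkas lemma. -/
def specA : Prop := ∀ (d r s : ℕ) (L : LP d r s) (c : Fin d → ℝ) (c₀ t : ℝ),
  (∃ x, L.Feasible x) → (∀ x, L.Feasible x → t ≤ c₀ + ∑ i, c i * x i) →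
  ∃ (u : Fin r → ℝ) (u₀ : ℝ), (∀ k, 0 ≤ u k) ∧ 0 ≤ u₀ ∧
    ∀ x : Fin d → ℝ, (∀ k, ∑ i, L.E k i * x i = L.γ k) →
      c₀ + ∑ i, c i * x i - t = u₀ + ∑ k, u k * (L.β k - ∑ i, L.A k i * x i)

/-- B: robust unique disjointness bound (corruption lemma). -/
def specB : Prop := ∀ (l r : ℕ) (u v : Fin r → Finset (Fin (2 * l + 1)) → ℝ) (Bd : ℝ),
  (∀ k a, 0 ≤ u k a) → (∀ k b, 0 ≤ v k b) →
  (∀ a b, ∑ k, u k a * v k b ≤ Bd) →
  (∀ a b, Disjoint a b → 1 ≤ ∑ k, u k a * v k b) →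
  (∀ a b, (a ∩ b).card = 1 → ∑ k, u k a * v k b ≤ 1 / 27) →
  Real.exp (((l : ℝ) + 1) / 200) ≤ 13 * Bd * r

/-- C: arbitrary weights on the unit edges from perturbed, scaled placements. -/
def specC : Prop := ∀ (n D W K : ℕ) (pos : Fin n → ℤ × ℤ) (wH wV : ℤ → ℤ → ℤ), 2 ≤ n →
  Function.Injective pos →
  (∀ i, 0 ≤ (pos i).1 ∧ (pos i).1 ≤ D ∧ 0 ≤ (pos i).2 ∧ (pos i).2 ≤ D) →
  (∀ x y, |wH x y| ≤ W ∧ |wV x y| ≤ W) →
  1000 * n * (D + 1) ^ 2 * (W + 1) ^ 2 ≤ K →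
  ∃ P : Fin n → ℤ × ℤ, Function.Injective P ∧
    (∀ i, 0 ≤ (P i).1 ∧ (P i).1 ≤ K * (D + 1) ∧ 0 ≤ (P i).2 ∧ (P i).2 ≤ K * (D + 1)) ∧
    (∀ σ, UnitTour pos σ →
      |tourLen P σ - ((K : ℝ) * n + (tourW wH wV pos σ : ℝ))| ≤ 1 / 200) ∧
    ∀ σ, ¬ UnitTour pos σ → (K : ℝ) * n + (n : ℝ) * (W + 1) ≤ tourLen P σ

/-- D: the combinatorial theorem (Hamiltonian cycle gadget). -/
def specD : Prop := ∀ M : ℕ, 1 ≤ M →
  ∃ (n : ℕ) (pos : Fin n → ℤ × ℤ) (wH wV : Finset (Fin M) → ℤ → ℤ → ℤ)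
    (T : Finset (Fin M) → Equiv.Perm (Fin n)),
    3 ≤ n ∧ n ≤ 400 * (M + 2) ^ 2 ∧ Function.Injective pos ∧
    (∀ i, 0 ≤ (pos i).1 ∧ (pos i).1 ≤ 20 * M + 40 ∧ 0 ≤ (pos i).2 ∧ (pos i).2 ≤ 20 * M + 40) ∧
    (∀ a x y, |wH a x y| ≤ M + 3 ∧ |wV a x y| ≤ M + 3) ∧
    (∀ b, UnitTour pos (T b)) ∧
    ∀ a, ∃ μ : ℤ, (∀ σ, UnitTour pos σ → μ ≤ tourW (wH a) (wV a) pos σ) ∧
      ∀ b, tourW (wH a) (wV a) pos (T b) = μ + (1 - ((a ∩ b).card : ℤ)) ^ 2

/-- E: assembly of A, B, C, D. -/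
def specE : Prop := ∀ l : ℕ, ∃ n : ℕ, 3 ≤ n ∧ n ≤ 400 * (2 * l + 3) ^ 2 ∧
  ∀ (d r s : ℕ) (L : LP d r s), L.SolvesTSP n (10 ^ 13 * (l + 2) ^ 7) (1 / 100) →
    Real.exp (((l : ℝ) + 1) / 200) ≤ 13 * ((2 * (l : ℝ) + 1) ^ 2 + 1) * (r + 1)

/-- F: from `n + t` points to `n` points. -/
def specF : Prop := ∀ (d r s : ℕ) (L : LP d r s) (n t B : ℕ), 2 ≤ n →
  L.SolvesTSP (n + t) ((200 * t + 1) * B + t) (1 / 100) → L.SolvesTSP n B (1 / 100)

/-- G: the final theorem. -/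
def specG : Prop := ∃ C n₀ : ℕ, ∀ n : ℕ, n₀ ≤ n → ∀ (d r s : ℕ) (L : LP d r s),
  L.SolvesTSP n (C * n ^ 5) (1 / 100) → Real.exp (√n / 10000) ≤ r

/-! ### Submodules of D -/

/-- The vertex positions of the gadget array. -/
noncomputable def posN (N : ℕ) (i : Fin (Vset N).card) : ℤ × ℤ :=
  (((((Vset N).equivFin.symm i : Vset N) : ℕ × ℕ).1 : ℤ),
    ((((Vset N).equivFin.symm i : Vset N) : ℕ × ℕ).2 : ℤ))

/-- The tour uses the horizontal edge from `(x, y)` to `(x + 1, y)`. -/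
noncomputable def useH {n : ℕ} (pos : Fin n → ℤ × ℤ) (σ : Equiv.Perm (Fin n)) (x y : ℕ) : Bool :=
  open Classical in
  decide (∃ i, (pos (σ i) = ((x : ℤ), (y : ℤ)) ∧ pos (σ (finRotate n i)) = ((x : ℤ) + 1, (y : ℤ))) ∨
    (pos (σ i) = ((x : ℤ) + 1, (y : ℤ)) ∧ pos (σ (finRotate n i)) = ((x : ℤ), (y : ℤ))))

/-- The tour uses the vertical edge from `(x, y)` to `(x, y + 1)`. -/
noncomputable def useV {n : ℕ} (pos : Fin n → ℤ × ℤ) (σ : Equiv.Perm (Fin n)) (x y : ℕ) : Bool :=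
  open Classical in
  decide (∃ i, (pos (σ i) = ((x : ℤ), (y : ℤ)) ∧ pos (σ (finRotate n i)) = ((x : ℤ), (y : ℤ) + 1)) ∨
    (pos (σ i) = ((x : ℤ), (y : ℤ) + 1) ∧ pos (σ (finRotate n i)) = ((x : ℤ), (y : ℤ))))

/-- D1: every unit tour has degree two everywhere and no proper closed subset. -/
def specD1 : Prop := ∀ (N : ℕ) (σ : Equiv.Perm (Fin (Vset N).card)), 3 ≤ (Vset N).card →
  UnitTour (posN N) σ →
  (∀ x y, pres N x y = true → degU (useH (posN N) σ) (useV (posN N) σ) x y = 2) ∧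
  ∀ S : Finset (ℕ × ℕ), S.Nonempty → S ⊂ Vset N →
    ∃ p ∈ S, ∃ q, q ∉ S ∧ adjU (useH (posN N) σ) (useV (posN N) σ) p q

/-- D2: the weight of a unit tour as a sum over used edges. -/
def specD2 : Prop := ∀ (N : ℕ) (σ : Equiv.Perm (Fin (Vset N).card)) (wH wV : ℤ → ℤ → ℤ),
  3 ≤ (Vset N).card → UnitTour (posN N) σ →
  tourW wH wV (posN N) σ =
    ∑ p ∈ Vset N, ((if useH (posN N) σ p.1 p.2 then wH p.1 p.2 else 0) +
      (if useV (posN N) σ p.1 p.2 then wV p.1 p.2 else 0))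

/-- D3: the ladders: exactly one of the two rails leaves every cell through its top and its right
side, and the same rail enters the ladder. -/
def specD3 : Prop := ∀ (N : ℕ) (uh uv : ℕ → ℕ → Bool), Good N uh uv → ∀ I J : ℕ,
  (hasT (ty N I J) = true →
    uv (10 * I + 1) (10 * J + 9) = !uv (10 * I + 2) (10 * J + 9) ∧
    uv (10 * I + 1) (10 * J + 5) = uv (10 * I + 1) (10 * J + 9) ∧
    uv (10 * I + 2) (10 * J + 5) = uv (10 * I + 2) (10 * J + 9)) ∧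
  (hasR (ty N I J) = true →
    uh (10 * I + 9) (10 * J + 1) = !uh (10 * I + 9) (10 * J + 2) ∧
    uh (10 * I + 5) (10 * J + 1) = uh (10 * I + 9) (10 * J + 1) ∧
    uh (10 * I + 5) (10 * J + 2) = uh (10 * I + 9) (10 * J + 2))

/-- D4: the bends on the diagonal carry the bit from the left side to the top side. -/
def specD4 : Prop := ∀ (N : ℕ) (uh uv : ℕ → ℕ → Bool), Good N uh uv → ∀ I : ℕ,
  1 ≤ I → I ≤ N →
  uh (10 * I - 1) (10 * I + 1) = !uh (10 * I - 1) (10 * I + 2) →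
  uv (10 * I + 2) (10 * I + 9) = uh (10 * I - 1) (10 * I + 2)

/-- D5: the crossing cell: both bits pass through, and the edge from `(0,1)` to `(0,2)` of the cell
is used exactly when both bits are one. -/
def specD5 : Prop := ∀ (N : ℕ) (uh uv : ℕ → ℕ → Bool), Good N uh uv → ∀ I J : ℕ,
  1 ≤ I → I < J → J ≤ N →
  uh (10 * I - 1) (10 * J + 1) = !uh (10 * I - 1) (10 * J + 2) →
  uv (10 * I + 1) (10 * J - 1) = !uv (10 * I + 2) (10 * J - 1) →
  uh (10 * I + 5) (10 * J + 1) = !uh (10 * I + 5) (10 * J + 2) →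
  uv (10 * I + 1) (10 * J + 5) = !uv (10 * I + 2) (10 * J + 5) →
  uh (10 * I + 5) (10 * J + 2) = uh (10 * I - 1) (10 * J + 2) ∧
  uv (10 * I + 2) (10 * J + 5) = uv (10 * I + 2) (10 * J - 1) ∧
  uv (10 * I) (10 * J + 1) = (uv (10 * I + 2) (10 * J - 1) && uh (10 * I - 1) (10 * J + 2))

/-- D6: reading products (from D3, D4, D5). -/
def specD6 : Prop := ∀ (M : ℕ) (uh uv : ℕ → ℕ → Bool), Good (2 * M + 2) uh uv → ∀ k l : ℕ,
  1 ≤ k → k < l → l ≤ M →
  uv (10 * (2 * k + 1)) (10 * (2 * l + 1) + 1) =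
    (uh 9 (10 * (2 * k + 1) + 2) && uh 9 (10 * (2 * l + 1) + 2))

/-- D7: a connected graph in which all degrees are two is a Hamiltonian cycle. -/
def specD7 : Prop := ∀ (V : Type) [Fintype V] (G : SimpleGraph V) (n : ℕ),
  Fintype.card V = n → G.Connected → (∀ v, (G.neighborSet v).ncard = 2) →
  ∃ σ : Fin n ≃ V, ∀ i, G.Adj (σ i) (σ (finRotate n i))

/-- D8: the configuration of `b` respects the tables and has degree two everywhere. -/
def specD8 : Prop := ∀ (M : ℕ) (b : ℕ → Bool), b 0 = false → b (M + 1) = true →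
  (∀ x y, uH (2 * M + 2) b x y = true → rd alH (2 * M + 2) x y = true ∧
    pres (2 * M + 2) x y = true ∧ pres (2 * M + 2) (x + 1) y = true) ∧
  (∀ x y, uV (2 * M + 2) b x y = true → rd alV (2 * M + 2) x y = true ∧
    pres (2 * M + 2) x y = true ∧ pres (2 * M + 2) x (y + 1) = true) ∧
  (∀ x y, rd foH (2 * M + 2) x y = true → uH (2 * M + 2) b x y = true) ∧
  (∀ x y, rd foV (2 * M + 2) x y = true → uV (2 * M + 2) b x y = true) ∧
  ∀ x y, pres (2 * M + 2) x y = true → degU (uH (2 * M + 2) b) (uV (2 * M + 2) b) x y = 2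

/-- D9: the configuration of `b` is connected. -/
def specD9 : Prop := ∀ (M : ℕ) (b : ℕ → Bool), b 0 = false → b (M + 1) = true →
  ∀ x y, pres (2 * M + 2) x y = true →
    Relation.ReflTransGen (adjU (uH (2 * M + 2) b) (uV (2 * M + 2) b)) (9, 11) (x, y)

/-- D10: the configuration of `b` is a unit tour (from D7, D8, D9). -/
def specD10 : Prop := ∀ (M : ℕ) (b : ℕ → Bool), b 0 = false → b (M + 1) = true →
  ∃ σ : Equiv.Perm (Fin (Vset (2 * M + 2)).card), UnitTour (posN (2 * M + 2)) σ ∧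
    useH (posN (2 * M + 2)) σ = uH (2 * M + 2) b ∧ useV (posN (2 * M + 2)) σ = uV (2 * M + 2) b

end Pool.Agent.Helper38.ELP
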