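import Pool.Agent.Helper38.ELP.Cfg
import Pool.Agent.Helper38.ELP.Spec

/-! Module D9: the configuration of `b` is connected. -/

namespace Pool.Agent.Helper38.ELP

/-- mask of the local positions with `x < 9` -/
def notRight : ℕ := 633205725040689368685058981375
/-- mask of the local positions with `y < 9` -/
def notTop : ℕ := 1237940039285380274899124223

theorem notRight_ok : ∀ k : Fin 100, notRight.testBit k = true → k.val % 10 < 9 := by
  decide +kernel

theorem notTop_ok : ∀ k : Fin 100, notTop.testBit k = true → k.val < 90 := by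
  decide +kernel

theorem notRight_lt {k : ℕ} (h : notRight.testBit k = true) : k < 100 ∧ k % 10 < 9 := by
  by_cases hk : k < 100
  · exact ⟨hk, notRight_ok ⟨k, hk⟩ h⟩
  · have : notRight < 2 ^ k :=
      lt_of_lt_of_le (by norm_num [notRight] : notRight < 2 ^ 100)
        (Nat.pow_le_pow_right (by norm_num) (by omega))
    rw [Nat.testBit_lt_two_pow this] at h
    exact Bool.noConfusion h

theorem notTop_lt {k : ℕ} (h : notTop.testBit k = true) : k < 90 := by
  by_cases hk : k < 100
  · exact notTop_ok ⟨k, hk⟩ h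
  · have : notTop < 2 ^ k :=
      lt_of_lt_of_le (by norm_num [notTop] : notTop < 2 ^ 100)
        (Nat.pow_le_pow_right (by norm_num) (by omega))
    rw [Nat.testBit_lt_two_pow this] at h
    exact Bool.noConfusion h

/-- one step of the flood fill along the used edges inside a cell -/
def fl (t : Ty) (v h : Bool) (m : ℕ) : ℕ :=
  (((m ||| ((m &&& (stH t v h &&& notRight)) <<< 1)) ||| ((m >>> 1) &&& (stH t v h &&& notRight))) |||
    ((m &&& (stV t v h &&& notTop)) <<< 10)) ||| ((m >>> 10) &&& (stV t v h &&& notTop))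

/-- the flood fill from a local position -/
def flood (t : Ty) (v h : Bool) (s : ℕ) : ℕ := (fl t v h)^[60] (1 <<< s)

theorem fl_sound {t : Ty} {v h : Bool} {S : ℕ → Prop}
    (hH : ∀ k, k < 100 → k % 10 < 9 → (stH t v h).testBit k = true → (S k ↔ S (k + 1)))
    (hV : ∀ k, k < 90 → (stV t v h).testBit k = true → (S k ↔ S (k + 10)))
    {m : ℕ} (hm : ∀ k, m.testBit k = true → S k) (k : ℕ) (hk : (fl t v h m).testBit k = true) :
    S k := by
  unfold fl at hk
  simp only [Nat.testBit_or, Nat.testBit_and, Nat.testBit_shiftLeft, Nat.testBit_shiftRight,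
    Bool.or_eq_true, Bool.and_eq_true, decide_eq_true_eq] at hk
  rcases hk with (((h1 | ⟨h1, h2, h3, h4⟩) | ⟨h2, h3, h4⟩) | ⟨h1, h2, h3, h4⟩) | ⟨h2, h3, h4⟩
  · exact hm k h1
  · have := notRight_lt h4
    have h5 := (hH (k - 1) this.1 this.2 h3).mp (hm _ h2)
    rwa [Nat.sub_add_cancel h1] at h5
  · have := notRight_lt h4
    exact (hH k this.1 this.2 h3).mpr (hm _ (by rwa [Nat.add_comm] at h2))
  · have := notTop_lt h4
    have h5 := (hV (k - 10) this h3).mp (hm _ h2)
    rwa [Nat.sub_add_cancel h1] at h5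
  · have := notTop_lt h4
    exact (hV k this h3).mpr (hm _ (by rwa [Nat.add_comm] at h2))

theorem flood_sound {t : Ty} {v h : Bool} {S : ℕ → Prop}
    (hH : ∀ k, k < 100 → k % 10 < 9 → (stH t v h).testBit k = true → (S k ↔ S (k + 1)))
    (hV : ∀ k, k < 90 → (stV t v h).testBit k = true → (S k ↔ S (k + 10)))
    {s : ℕ} (hs : S s) (k : ℕ) (hk : (flood t v h s).testBit k = true) : S k := by
  have key : ∀ (n m : ℕ), (∀ k, m.testBit k = true → S k) →
      ∀ k, ((fl t v h)^[n] m).testBit k = true → S k := by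
    intro n
    induction n with
    | zero => intro m hm k hk; exact hm k hk
    | succ n ih =>
      intro m hm k hk
      rw [Function.iterate_succ_apply] at hk
      exact ih _ (fun k hk => fl_sound hH hV hm k hk) k hk
  refine key 60 (1 <<< s) (fun k hk => ?_) k hk
  rw [Nat.testBit_shiftLeft] at hk
  simp only [Bool.and_eq_true, decide_eq_true_eq] at hk
  have : k = s := by
    by_contra hne
    have h2 : (1 : ℕ).testBit (k - s) = true := hk.2
    have h3 : k - s ≠ 0 := by omega
    rw [Nat.testBit_one_eq_true_iff_self_eq_zero] at h2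
    exact h3 h2
  rw [this]; exact hs

theorem flood_X : ∀ v h : Bool,
    presM .X = (flood .X v h (10 * (1 + h.toNat)) ||| flood .X v h (91 + v.toNat)) ∧
    (flood .X v h (10 * (1 + h.toNat))).testBit (1 + v.toNat) = true ∧
    (flood .X v h (91 + v.toNat)).testBit (10 * (1 + h.toNat) + 9) = true := by decide +kernel

theorem flood_LT : ∀ v h : Bool, valid .LT v h = true →
    presM .LT = flood .LT v h (10 * (1 + h.toNat)) ∧
    (flood .LT v h (10 * (1 + h.toNat))).testBit (91 + v.toNat) = true := by decide +kernel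

theorem flood_RB : ∀ v h : Bool, valid .RB v h = true →
    presM .RB = flood .RB v h (1 + v.toNat) ∧
    (flood .RB v h (1 + v.toNat)).testBit (10 * (1 + h.toNat) + 9) = true := by decide +kernel

theorem flood_RT : ∀ v h : Bool, valid .RT v h = true →
    presM .RT = flood .RT v h (10 * (1 + h.toNat) + 9) ∧
    (flood .RT v h (10 * (1 + h.toNat) + 9)).testBit (91 + v.toNat) = true := by decide +kernel

theorem flood_LB : ∀ v h : Bool, valid .LB v h = true →
    presM .LB = flood .LB v h (10 * (1 + h.toNat)) ∧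
    (flood .LB v h (10 * (1 + h.toNat))).testBit (1 + v.toNat) = true := by decide +kernel

theorem flood_Hs : ∀ v h : Bool,
    presM .Hs = flood .Hs v h (10 * (1 + h.toNat)) ∧
    (flood .Hs v h (10 * (1 + h.toNat))).testBit (10 * (1 + h.toNat) + 9) = true := by
  decide +kernel

theorem flood_Vs : ∀ v h : Bool,
    presM .Vs = flood .Vs v h (1 + v.toNat) ∧
    (flood .Vs v h (1 + v.toNat)).testBit (91 + v.toNat) = true := by decide +kernel

/-! ### Global part -/

section Global

variable (N : ℕ) (b : ℕ → Bool)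

/-- joined by used edges of the configuration -/
def Jn (p q : ℕ × ℕ) : Prop := Relation.ReflTransGen (adjU (uH N b) (uV N b)) p q

/-- the port vertices of a cell -/
def Lp (I J : ℕ) : ℕ × ℕ := (10 * I, 10 * J + (1 + (hb N b I J).toNat))
/-- right port -/
def Rp (I J : ℕ) : ℕ × ℕ := (10 * I + 9, 10 * J + (1 + (hb N b I J).toNat))
/-- bottom port -/
def Bp (I J : ℕ) : ℕ × ℕ := (10 * I + (1 + (vb b I J).toNat), 10 * J)
/-- top port -/
def Tp (I J : ℕ) : ℕ × ℕ := (10 * I + (1 + (vb b I J).toNat), 10 * J + 9)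

variable {N b}

theorem adjU_symm {uh uv : ℕ → ℕ → Bool} {p q : ℕ × ℕ} (h : adjU uh uv p q) : adjU uh uv q p := by
  unfold adjU at *; tauto

theorem Jn.symm {p q : ℕ × ℕ} (h : Jn N b p q) : Jn N b q p := by
  unfold Jn at *
  induction h with
  | refl => exact .refl
  | tail _ h2 ih => exact (Relation.ReflTransGen.single (adjU_symm h2)).trans ih

theorem Jn.trans {p q r : ℕ × ℕ} (h : Jn N b p q) (h' : Jn N b q r) : Jn N b p r :=
  Relation.ReflTransGen.trans h h'

theorem Jn.refl (p : ℕ × ℕ) : Jn N b p p := Relation.ReflTransGen.refl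

theorem jn_right {x y : ℕ} (h : uH N b x y = true) : Jn N b (x, y) (x + 1, y) :=
  Relation.ReflTransGen.single (Or.inl ⟨rfl, h⟩)

theorem jn_up {x y : ℕ} (h : uV N b x y = true) : Jn N b (x, y) (x, y + 1) :=
  Relation.ReflTransGen.single (Or.inr (Or.inr (Or.inl ⟨rfl, h⟩)))

/-- the global position of the local position `k` of the cell `(I, J)` -/
def gp (I J k : ℕ) : ℕ × ℕ := (10 * I + k % 10, 10 * J + k / 10)

/-- everything reached by the flood fill is joined -/
theorem flood_jn (I J s k : ℕ)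
    (hk : (flood (ty N I J) (vb b I J) (hb N b I J) s).testBit k = true) :
    Jn N b (gp I J s) (gp I J k) := by
  refine flood_sound (S := fun k => Jn N b (gp I J s) (gp I J k)) ?_ ?_ (Jn.refl _) k hk
  · intro k hk1 hk2 hk3
    have h1 : Jn N b (gp I J k) (gp I J (k + 1)) := by
      unfold gp
      have e1 : (k + 1) % 10 = k % 10 + 1 := by omega
      have e2 : (k + 1) / 10 = k / 10 := by omega
      rw [e1, e2, ← Nat.add_assoc]
      apply jn_right
      rw [uH_loc N b I J _ _ (by omega) (by omega), Nat.div_add_mod]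
      exact hk3
    exact ⟨fun h => h.trans h1, fun h => h.trans h1.symm⟩
  · intro k hk1 hk3
    have h1 : Jn N b (gp I J k) (gp I J (k + 10)) := by
      unfold gp
      have e1 : (k + 10) % 10 = k % 10 := by omega
      have e2 : (k + 10) / 10 = k / 10 + 1 := by omega
      rw [e1, e2, ← Nat.add_assoc]
      apply jn_up
      rw [uV_loc N b I J _ _ (by omega) (by omega), Nat.div_add_mod]
      exact hk3
    exact ⟨fun h => h.trans h1, fun h => h.trans h1.symm⟩

theorem gp_L (I J : ℕ) : gp I J (10 * (1 + (hb N b I J).toNat)) = Lp N b I J := by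
  unfold gp Lp
  cases hb N b I J <;> simp

theorem gp_R (I J : ℕ) : gp I J (10 * (1 + (hb N b I J).toNat) + 9) = Rp N b I J := by
  unfold gp Rp
  cases hb N b I J <;> simp

theorem gp_B (I J : ℕ) : gp I J (1 + (vb b I J).toNat) = Bp b I J := by
  unfold gp Bp
  cases vb b I J <;> simp

theorem gp_T (I J : ℕ) : gp I J (91 + (vb b I J).toNat) = Tp b I J := by
  unfold gp Tp
  cases vb b I J <;> simp

theorem cell_X {I J : ℕ} (h : ty N I J = .X) :
    Jn N b (Lp N b I J) (Bp b I J) ∧ Jn N b (Tp b I J) (Rp N b I J) ∧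
    ∀ k, (presM .X).testBit k = true →
      Jn N b (Lp N b I J) (gp I J k) ∨ Jn N b (Tp b I J) (gp I J k) := by
  obtain ⟨h1, h2, h3⟩ := flood_X (vb b I J) (hb N b I J)
  refine ⟨?_, ?_, ?_⟩
  · rw [← gp_L, ← gp_B]; exact flood_jn I J _ _ (by rw [h]; exact h2)
  · rw [← gp_R, ← gp_T]; exact flood_jn I J _ _ (by rw [h]; exact h3)
  · intro k hk
    rw [h1, Nat.testBit_or, Bool.or_eq_true] at hk
    rcases hk with hk | hk
    · left; rw [← gp_L]; exact flood_jn I J _ _ (by rw [h]; exact hk)
    · right; rw [← gp_T]; exact flood_jn I J _ _ (by rw [h]; exact hk)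

theorem cell_LT {I J : ℕ} (h : ty N I J = .LT) (hv : valid (ty N I J) (vb b I J) (hb N b I J) = true) :
    Jn N b (Lp N b I J) (Tp b I J) ∧
    ∀ k, (presM .LT).testBit k = true → Jn N b (Lp N b I J) (gp I J k) := by
  rw [h] at hv
  obtain ⟨h1, h2⟩ := flood_LT (vb b I J) (hb N b I J) hv
  refine ⟨?_, ?_⟩
  · rw [← gp_L, ← gp_T]; exact flood_jn I J _ _ (by rw [h]; exact h2)
  · intro k hk
    rw [h1] at hk
    rw [← gp_L]; exact flood_jn I J _ _ (by rw [h]; exact hk)

theorem cell_RB {I J : ℕ} (h : ty N I J = .RB) (hv : valid (ty N I J) (vb b I J) (hb N b I J) = true) :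
    Jn N b (Bp b I J) (Rp N b I J) ∧
    ∀ k, (presM .RB).testBit k = true → Jn N b (Bp b I J) (gp I J k) := by
  rw [h] at hv
  obtain ⟨h1, h2⟩ := flood_RB (vb b I J) (hb N b I J) hv
  refine ⟨?_, ?_⟩
  · rw [← gp_B, ← gp_R]; exact flood_jn I J _ _ (by rw [h]; exact h2)
  · intro k hk
    rw [h1] at hk
    rw [← gp_B]; exact flood_jn I J _ _ (by rw [h]; exact hk)

theorem cell_RT {I J : ℕ} (h : ty N I J = .RT) (hv : valid (ty N I J) (vb b I J) (hb N b I J) = true) :
    Jn N b (Rp N b I J) (Tp b I J) ∧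
    ∀ k, (presM .RT).testBit k = true → Jn N b (Rp N b I J) (gp I J k) := by
  rw [h] at hv
  obtain ⟨h1, h2⟩ := flood_RT (vb b I J) (hb N b I J) hv
  refine ⟨?_, ?_⟩
  · rw [← gp_R, ← gp_T]; exact flood_jn I J _ _ (by rw [h]; exact h2)
  · intro k hk
    rw [h1] at hk
    rw [← gp_R]; exact flood_jn I J _ _ (by rw [h]; exact hk)

theorem cell_LB {I J : ℕ} (h : ty N I J = .LB) (hv : valid (ty N I J) (vb b I J) (hb N b I J) = true) :
    Jn N b (Lp N b I J) (Bp b I J) ∧
    ∀ k, (presM .LB).testBit k = true → Jn N b (Lp N b I J) (gp I J k) := by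
  rw [h] at hv
  obtain ⟨h1, h2⟩ := flood_LB (vb b I J) (hb N b I J) hv
  refine ⟨?_, ?_⟩
  · rw [← gp_L, ← gp_B]; exact flood_jn I J _ _ (by rw [h]; exact h2)
  · intro k hk
    rw [h1] at hk
    rw [← gp_L]; exact flood_jn I J _ _ (by rw [h]; exact hk)

theorem cell_Hs {I J : ℕ} (h : ty N I J = .Hs) :
    Jn N b (Lp N b I J) (Rp N b I J) ∧
    ∀ k, (presM .Hs).testBit k = true → Jn N b (Lp N b I J) (gp I J k) := by
  obtain ⟨h1, h2⟩ := flood_Hs (vb b I J) (hb N b I J)
  refine ⟨?_, ?_⟩
  · rw [← gp_L, ← gp_R]; exact flood_jn I J _ _ (by rw [h]; exact h2)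
  · intro k hk
    rw [h1] at hk
    rw [← gp_L]; exact flood_jn I J _ _ (by rw [h]; exact hk)

theorem cell_Vs {I J : ℕ} (h : ty N I J = .Vs) :
    Jn N b (Bp b I J) (Tp b I J) ∧
    ∀ k, (presM .Vs).testBit k = true → Jn N b (Bp b I J) (gp I J k) := by
  obtain ⟨h1, h2⟩ := flood_Vs (vb b I J) (hb N b I J)
  refine ⟨?_, ?_⟩
  · rw [← gp_B, ← gp_T]; exact flood_jn I J _ _ (by rw [h]; exact h2)
  · intro k hk
    rw [h1] at hk
    rw [← gp_B]; exact flood_jn I J _ _ (by rw [h]; exact hk)

/-- the right port is joined to the left port of the right neighbour -/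
theorem jn_RL (hN : N % 2 = 0) {I J : ℕ} (h : hasR (ty N I J) = true)
    (hv : valid (ty N I J) (vb b I J) (hb N b I J) = true) :
    Jn N b (Rp N b I J) (Lp N b (I + 1) J) := by
  unfold Rp Lp
  rw [hb_right hN I J h]
  have hy : 1 + (hb N b I J).toNat < 10 := by cases hb N b I J <;> simp
  have e : 10 * (I + 1) = 10 * I + 9 + 1 := by ring
  rw [e]
  apply jn_right
  rw [uH_loc N b I J 9 _ (by omega) hy]
  have := (st_port (ty N I J) (vb b I J) (hb N b I J) hv ⟨_, hy⟩).1
  rw [this, h]
  simp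

/-- the top port is joined to the bottom port of the upper neighbour -/
theorem jn_TB (hN : N % 2 = 0) {I J : ℕ} (h : hasT (ty N I J) = true)
    (hv : valid (ty N I J) (vb b I J) (hb N b I J) = true) :
    Jn N b (Tp b I J) (Bp b I (J + 1)) := by
  unfold Tp Bp
  rw [vb_up hN I J h]
  have hy : 1 + (vb b I J).toNat < 10 := by cases vb b I J <;> simp
  have e : 10 * (J + 1) = 10 * J + 9 + 1 := by ring
  rw [e]
  apply jn_up
  rw [uV_loc N b I J _ 9 hy (by omega)]
  have := (st_port (ty N I J) (vb b I J) (hb N b I J) hv ⟨_, hy⟩).2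
  simp only at this
  have e2 : 10 * 9 + (1 + (vb b I J).toNat) = 90 + (1 + (vb b I J).toNat) := by ring
  rw [e2, this, h]
  simp

end Global

section Chain

variable {N : ℕ} {b : ℕ → Bool} (hN : N % 2 = 0)
  (hv : ∀ I J, valid (ty N I J) (vb b I J) (hb N b I J) = true)

include hN hv

theorem RL {I J : ℕ} (h : hasL (ty N (I + 1) J) = true) :
    Jn N b (Rp N b I J) (Lp N b (I + 1) J) :=
  jn_RL hN (by rw [hasR_eq hN]; exact h) (hv I J)

theorem TB {I J : ℕ} (h : hasB (ty N I (J + 1)) = true) :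
    Jn N b (Tp b I J) (Bp b I (J + 1)) :=
  jn_TB hN (by rw [hasT_eq hN]; exact h) (hv I J)

theorem X1 {I J : ℕ} (h : I < J) (hJ : J + 1 ≤ N) :
    Jn N b (Rp N b I (J + 1)) (Tp b (I + 1) J) := by
  have ht : ty N (I + 1) (J + 1) = .X := ty_X (by omega) (by omega) hJ
  have h1 := RL hN hv (I := I) (J := J + 1) (by rw [ht]; rfl)
  have h2 := TB hN hv (I := I + 1) (J := J) (by rw [ht]; rfl)
  exact (h1.trans (cell_X ht).1).trans h2.symm

theorem X2 {I J : ℕ} (h1 : 1 ≤ I) (h : I < J) (hJ : J ≤ N) :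
    Jn N b (Tp b I J) (Rp N b I J) := (cell_X (ty_X h1 h hJ)).2.1

theorem DG {I : ℕ} (hI : I + 1 ≤ N) : Jn N b (Rp N b I (I + 1)) (Tp b (I + 1) (I + 1)) := by
  have ht : ty N (I + 1) (I + 1) = .LT := ty_diag (by omega) hI
  have h1 := RL hN hv (I := I) (J := I + 1) (by rw [ht]; rfl)
  exact h1.trans (cell_LT ht (hv _ _)).1

theorem ch_a : ∀ I J : ℕ, I < J → I + J ≤ N → Jn N b (Rp N b I J) (Rp N b 0 (I + J)) := by
  intro I
  induction I with
  | zero => intro J _ _; rw [Nat.zero_add]; exact Jn.refl _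
  | succ I ih =>
    intro J h1 h2
    have h3 := X2 hN hv (I := I + 1) (J := J) (by omega) h1 (by omega)
    have h4 := X1 hN hv (I := I) (J := J) (by omega) (by omega)
    have h5 := ih (J + 1) (by omega) (by omega)
    have e : I + 1 + J = I + (J + 1) := by omega
    rw [e]
    exact (h3.symm.trans h4.symm).trans h5

theorem ch_b {I J : ℕ} (h1 : 1 ≤ I) (h : I ≤ J) (h2 : I + J ≤ N) :
    Jn N b (Tp b I J) (Rp N b 0 (I + J)) := by
  obtain ⟨I, rfl⟩ : ∃ k, I = k + 1 := ⟨I - 1, by omega⟩
  have h4 := X1 hN hv (I := I) (J := J) (by omega) (by omega)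
  have h5 := ch_a hN hv I (J + 1) (by omega) (by omega)
  have e : I + 1 + J = I + (J + 1) := by omega
  rw [e]
  exact h4.symm.trans h5

theorem ch_c : ∀ d I J : ℕ, J + d = N → I ≤ J → N < I + J →
    Jn N b (Tp b I J) (Tp b (I + J - N) N) := by
  intro d
  induction d with
  | zero =>
    intro I J h1 h2 h3
    have : J = N := by omega
    subst this
    rw [Nat.add_sub_cancel]
    exact Jn.refl _
  | succ d ih =>
    intro I J h1 h2 h3
    obtain ⟨I, rfl⟩ : ∃ k, I = k + 1 := ⟨I - 1, by omega⟩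
    have h4 := X1 hN hv (I := I) (J := J) (by omega) (by omega)
    have h5 := X2 hN hv (I := I) (J := J + 1) (by omega) (by omega) (by omega)
    have h6 := ih I (J + 1) (by omega) (by omega) (by omega)
    have e : I + 1 + J = I + (J + 1) := by omega
    rw [e]
    exact (h4.symm.trans h5.symm).trans h6

theorem left_cap {s : ℕ} (hs : s % 2 = 0) (h : s ≤ N) : Jn N b (Rp N b 0 s) (Bp b 0 (s + 1)) := by
  have ht : ty N 0 s = .RT := ty_left_even (by omega) hs
  have ht2 : ty N 0 (s + 1) = .RB := ty_left_odd (by omega) (by omega)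
  exact (cell_RT ht (hv _ _)).1.trans (TB hN hv (by rw [ht2]; rfl))

theorem left_cap2 {s : ℕ} (hs : s % 2 = 0) (h : s ≤ N) :
    Jn N b (Rp N b 0 s) (Rp N b 0 (s + 1)) := by
  have ht2 : ty N 0 (s + 1) = .RB := ty_left_odd (by omega) (by omega)
  exact (left_cap hN hv hs h).trans (cell_RB ht2 (hv _ _)).1

theorem top_cap {I : ℕ} (hI : I % 2 = 0) (h1 : 1 ≤ I) (h : I ≤ N) :
    Jn N b (Tp b I N) (Tp b (I + 1) N) := by
  have ht : ty N I (N + 1) = .RB := ty_top_even (by omega) h1 hI
  have ht2 : ty N (I + 1) (N + 1) = .LB := ty_top_odd (by omega) (by omega)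
  have h2 := TB hN hv (I := I) (J := N) (by rw [ht]; rfl)
  have h3 := (cell_RB ht (hv _ _)).1
  have h4 := RL hN hv (I := I) (J := N + 1) (by rw [ht2]; rfl)
  have h5 := (cell_LB ht2 (hv _ _)).1
  have h6 := TB hN hv (I := I + 1) (J := N) (by rw [ht2]; rfl)
  exact (((h2.trans h3).trans h4).trans h5).trans h6.symm

theorem corner_cap : Jn N b (Rp N b 0 N) (Tp b 1 N) := by
  have ht : ty N 0 (N + 1) = .RB := ty_left_odd (by omega) (by omega)
  have ht2 : ty N 1 (N + 1) = .LB := ty_top_odd (by omega) (by omega)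
  have h3 := left_cap2 hN hv hN le_rfl
  have h4 := RL hN hv (I := 0) (J := N + 1) (by rw [ht2]; rfl)
  have h5 := (cell_LB ht2 (hv _ _)).1
  have h6 := TB hN hv (I := 1) (J := N) (by rw [ht2]; rfl)
  exact ((h3.trans h4).trans h5).trans h6.symm

theorem chain : ∀ s : ℕ, s + 1 ≤ 2 * N →
    (s + 1 ≤ N → Jn N b (Rp N b 0 1) (Rp N b 0 (s + 1))) ∧
    (N < s + 1 → Jn N b (Rp N b 0 1) (Tp b (s + 1 - N) N)) := by
  intro s
  induction s with
  | zero =>
    intro h
    exact ⟨fun _ => Jn.refl _, fun h2 => by omega⟩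
  | succ s ih =>
    intro h
    obtain ⟨ih1, ih2⟩ := ih (by omega)
    rcases Nat.mod_two_eq_zero_or_one s with hs | hs
    · -- index `s + 1` odd
      obtain ⟨I, rfl⟩ : ∃ I, s = 2 * I := ⟨s / 2, by omega⟩
      have h1 := DG hN hv (I := I) (by omega)
      have h2 : Jn N b (Rp N b 0 1) (Rp N b I (I + 1)) := by
        by_cases hle : 2 * I + 1 ≤ N
        · have h3 := ch_a hN hv I (I + 1) (by omega) (by omega)
          have e : I + (I + 1) = 2 * I + 1 := by omega
          rw [e] at h3
          exact (ih1 hle).trans h3.symm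
        · have h3 := X2 hN hv (I := I) (J := I + 1) (by omega) (by omega) (by omega)
          have h4 := ch_c hN hv (N - (I + 1)) I (I + 1) (by omega) (by omega) (by omega)
          have e : I + (I + 1) = 2 * I + 1 := by omega
          rw [e] at h4
          exact ((ih2 (by omega)).trans h4.symm).trans h3
      have h5 := h2.trans h1
      constructor
      · intro hle
        have h6 := ch_b hN hv (I := I + 1) (J := I + 1) (by omega) le_rfl (by omega)
        have e : I + 1 + (I + 1) = 2 * I + 1 + 1 := by omega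
        rw [e] at h6
        exact h5.trans h6
      · intro hlt
        have h6 := ch_c hN hv (N - (I + 1)) (I + 1) (I + 1) (by omega) le_rfl (by omega)
        have e : I + 1 + (I + 1) = 2 * I + 1 + 1 := by omega
        rw [e] at h6
        exact h5.trans h6
    · -- index `s + 1` even
      by_cases hle : s + 1 + 1 ≤ N
      · have h1 := left_cap2 hN hv (s := s + 1) (by omega) (by omega)
        exact ⟨fun _ => (ih1 (by omega)).trans h1, fun h2 => by omega⟩
      · refine ⟨fun h2 => by omega, fun _ => ?_⟩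
        by_cases heq : s + 1 = N
        · have h1 := ih1 (by omega)
          rw [heq] at h1 ⊢
          rw [Nat.add_sub_cancel_left]
          exact h1.trans (corner_cap hN hv)
        · have h1 := ih2 (by omega)
          have h2 := top_cap hN hv (I := s + 1 - N) (by omega) (by omega) (by omega)
          have e : s + 1 + 1 - N = s + 1 - N + 1 := by omega
          rw [e]
          exact h1.trans h2

theorem all_R {I J : ℕ} (h : I < J) (hJ : J ≤ N) : Jn N b (Rp N b 0 1) (Rp N b I J) := by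
  by_cases hle : I + J ≤ N
  · have h1 := (chain hN hv (I + J - 1) (by omega)).1 (by omega)
    rw [Nat.sub_add_cancel (by omega)] at h1
    exact h1.trans (ch_a hN hv I J h hle).symm
  · have h1 := (chain hN hv (I + J - 1) (by omega)).2 (by omega)
    rw [Nat.sub_add_cancel (by omega)] at h1
    have h2 := ch_c hN hv (N - J) I J (by omega) (by omega) (by omega)
    exact (h1.trans h2.symm).trans (X2 hN hv (by omega) h hJ)

theorem all_T {I J : ℕ} (h1 : 1 ≤ I) (h : I ≤ J) (hJ : J ≤ N) :
    Jn N b (Rp N b 0 1) (Tp b I J) := by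
  by_cases hle : I + J ≤ N
  · have h2 := (chain hN hv (I + J - 1) (by omega)).1 (by omega)
    rw [Nat.sub_add_cancel (by omega)] at h2
    exact h2.trans (ch_b hN hv h1 h hle).symm
  · have h2 := (chain hN hv (I + J - 1) (by omega)).2 (by omega)
    rw [Nat.sub_add_cancel (by omega)] at h2
    exact h2.trans (ch_c hN hv (N - J) I J (by omega) (by omega) (by omega)).symm

theorem row0 : ∀ I : ℕ, I ≤ N → Jn N b (Rp N b 0 1) (Rp N b I 0) := by
  intro I
  induction I with
  | zero =>
    intro _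
    exact (left_cap2 hN hv (s := 0) rfl (by omega)).symm
  | succ I ih =>
    intro h
    have ht : ty N (I + 1) 0 = .Hs := ty_bottom (by omega) h
    exact ((ih (by omega)).trans (RL hN hv (by rw [ht]; rfl))).trans (cell_Hs ht).1

theorem colN : ∀ J : ℕ, J ≤ N → Jn N b (Rp N b 0 1) (Tp b (N + 1) J) := by
  intro J
  induction J with
  | zero =>
    intro _
    have ht : ty N (N + 1) 0 = .LT := ty_corner
    exact ((row0 hN hv N le_rfl).trans (RL hN hv (by rw [ht]; rfl))).trans
      (cell_LT ht (hv _ _)).1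
  | succ J ih =>
    intro h
    have ht : ty N (N + 1) (J + 1) = .Vs := ty_right (by omega) h
    exact ((ih (by omega)).trans (TB hN hv (by rw [ht]; rfl))).trans (cell_Vs ht).1

theorem all_vert {x y : ℕ} (h : pres N x y = true) : Jn N b (Rp N b 0 1) (x, y) := by
  have e : (x, y) = gp (x / 10) (y / 10) (10 * (y % 10) + x % 10) := by
    unfold gp
    ext <;> simp only <;> omega
  rw [e]
  unfold pres rd at h
  generalize x / 10 = I at *
  generalize y / 10 = J at *
  generalize 10 * (y % 10) + x % 10 = k at *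
  rcases ty_cases hN I J with g | ⟨rfl, h1, h2⟩ | ⟨rfl, h1, h2⟩ | ⟨rfl, h1, h2, h3⟩ | ⟨rfl, h1, h2⟩ |
    ⟨rfl, rfl⟩ | ⟨rfl, h1, h2⟩ | ⟨rfl, h1, h2⟩ | ⟨h1, h2, h3⟩ | ⟨rfl, h1, h2⟩ | ⟨h1, h2, h3⟩
  · rw [ty_out g] at h
    exfalso
    rw [show presM Ty.E = 0 from rfl, Nat.zero_testBit] at h
    exact Bool.noConfusion h
  · have ht : ty N 0 J = .RT := ty_left_even h1 h2
    rw [ht] at h
    refine Jn.trans ?_ ((cell_RT ht (hv _ _)).2 k h)
    by_cases hJ : J = 0
    · subst hJ; exact row0 hN hv 0 (by omega)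
    · exact all_R hN hv (by omega) (by omega)
  · have ht : ty N 0 J = .RB := ty_left_odd h1 h2
    rw [ht] at h
    refine Jn.trans ?_ ((cell_RB ht (hv _ _)).2 k h)
    by_cases hJ : J = N + 1
    · subst hJ
      refine Jn.trans ?_ (left_cap hN hv hN le_rfl)
      by_cases h0 : N = 0
      · subst h0; exact row0 hN hv 0 (by omega)
      · exact all_R hN hv (by omega) (by omega)
    · exact (all_R hN hv (by omega) (by omega)).trans (cell_RB ht (hv _ _)).1.symm
  · have ht : ty N I (N + 1) = .RB := ty_top_even h2 h1 h3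
    rw [ht] at h
    refine Jn.trans ?_ ((cell_RB ht (hv _ _)).2 k h)
    exact (all_T hN hv h1 (by omega) le_rfl).trans (TB hN hv (by rw [ht]; rfl))
  · have ht : ty N I (N + 1) = .LB := ty_top_odd h1 h2
    rw [ht] at h
    refine Jn.trans ?_ ((cell_LB ht (hv _ _)).2 k h)
    refine Jn.trans ?_ (cell_LB ht (hv _ _)).1.symm
    refine Jn.trans ?_ (TB hN hv (by rw [ht]; rfl))
    by_cases hI : I = N + 1
    · subst hI; exact colN hN hv N le_rfl
    · exact all_T hN hv (by omega) (by omega) le_rfl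
  · have ht : ty N (N + 1) 0 = .LT := ty_corner
    rw [ht] at h
    refine Jn.trans ?_ ((cell_LT ht (hv _ _)).2 k h)
    exact (row0 hN hv N le_rfl).trans (RL hN hv (by rw [ht]; rfl))
  · have ht : ty N (N + 1) J = .Vs := ty_right h1 h2
    rw [ht] at h
    refine Jn.trans ?_ ((cell_Vs ht).2 k h)
    obtain ⟨J, rfl⟩ : ∃ j, J = j + 1 := ⟨J - 1, by omega⟩
    exact (colN hN hv J (by omega)).trans (TB hN hv (by rw [ht]; rfl))
  · have ht : ty N I 0 = .Hs := ty_bottom h1 h2
    rw [ht] at h
    refine Jn.trans ?_ ((cell_Hs ht).2 k h)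
    obtain ⟨I, rfl⟩ : ∃ j, I = j + 1 := ⟨I - 1, by omega⟩
    exact (row0 hN hv I (by omega)).trans (RL hN hv (by rw [ht]; rfl))
  · have ht : ty N I J = .X := ty_X h1 h2 h3
    rw [ht] at h
    rcases (cell_X ht).2.2 k h with h4 | h4
    · refine Jn.trans ?_ h4
      obtain ⟨I, rfl⟩ : ∃ j, I = j + 1 := ⟨I - 1, by omega⟩
      exact (all_R hN hv (by omega) h3).trans (RL hN hv (by rw [ht]; rfl))
    · exact (all_T hN hv h1 h2.le h3).trans h4
  · have ht : ty N I I = .LT := ty_diag h1 h2
    rw [ht] at h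
    refine Jn.trans ?_ ((cell_LT ht (hv _ _)).2 k h)
    obtain ⟨I, rfl⟩ : ∃ j, I = j + 1 := ⟨I - 1, by omega⟩
    exact (all_R hN hv (by omega) h2).trans (RL hN hv (by rw [ht]; rfl))
  · rw [ty_empty h1 h2 h3] at h
    exfalso
    rw [show presM Ty.E = 0 from rfl, Nat.zero_testBit] at h
    exact Bool.noConfusion h

end Chain

theorem D9 : specD9 := by
  intro M b h0 h1 x y h
  have := all_vert (N := 2 * M + 2) (b := b) (by omega) (valid_cfg h0 h1) h
  have e : Rp (2 * M + 2) b 0 1 = (9, 11) := by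
    unfold Rp hb wbit
    have : ¬ 1 = 2 * M + 2 + 1 := by omega
    simp [this, h0]
  rw [e] at this
  exact this

end Pool.Agent.Helper38.ELP
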