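import Pool.Agent.Helper38.ELP.Core

/-! Module D5: the crossing cell. -/

namespace Pool.Agent.Helper38.ELP

open Core

theorem portH_tab : ∀ t : Ty, ∀ y : Fin 10, (alH t).testBit (10 * y + 9) = true →
    y.val = 1 ∨ y.val = 2 := by decide +kernel

theorem portV_tab : ∀ t : Ty, ∀ x : Fin 10, (alV t).testBit (90 + x) = true →
    x.val = 1 ∨ x.val = 2 := by decide +kernel

theorem coreX_tab : ∀ x y : Fin 6, (presM .X).testBit (10 * y + x) = true := by decide +kernel

theorem root_tab : (presM .RB).testBit 19 = true := by decide +kernel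

/-- no closed set in a core -/
theorem no_closed {N : ℕ} {uh uv : ℕ → ℕ → Bool} (G : Good N uh uv) {I J : ℕ} (hI : 1 ≤ I)
    (hIJ : I < J) (hJ : J ≤ N) (S : List ℕ) (hS : ∀ k ∈ S, k < 36) (hne : S ≠ [])
    (hcl : closedB (fun k => uh (10 * I + k % 6) (10 * J + k / 6))
      (fun k => uv (10 * I + k % 6) (10 * J + k / 6)) S = true) : False := by
  classical
  have hty : ty N I J = .X := ty_X hI hIJ hJ
  have hpres : ∀ k, k < 36 → pres N (10 * I + k % 6) (10 * J + k / 6) = true := by
    intro k hk
    unfold pres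
    rw [rd_loc _ _ _ _ _ _ (by omega) (by omega), hty]
    exact coreX_tab ⟨k % 6, by omega⟩ ⟨k / 6, by omega⟩
  obtain ⟨p, hp, q, hq, hadj⟩ := G.nocyc
    (S.map fun k => (10 * I + k % 6, 10 * J + k / 6)).toFinset (by
      obtain ⟨k, hk⟩ := List.exists_mem_of_ne_nil S hne
      exact ⟨_, List.mem_toFinset.mpr (List.mem_map.mpr ⟨k, hk, rfl⟩)⟩) (by
      rw [Finset.ssubset_iff_of_subset]
      · refine ⟨(9, 11), ?_, ?_⟩
        · rw [mem_Vset]
          unfold pres
          have := rd_loc presM N 0 1 9 1 (by omega) (by omega)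
          rw [ty_left_odd (by omega) rfl] at this
          simp only [Nat.mul_zero, Nat.zero_add, Nat.mul_one] at this
          rw [show (10 + 1 : ℕ) = 11 from rfl] at this
          rw [this]
          exact root_tab
        · rw [List.mem_toFinset, List.mem_map]
          rintro ⟨k, -, hk⟩
          rw [Prod.mk.injEq] at hk
          omega
      · intro w hw
        rw [List.mem_toFinset, List.mem_map] at hw
        obtain ⟨k, hk, rfl⟩ := hw
        rw [mem_Vset]
        exact hpres k (hS k hk))
  rw [List.mem_toFinset, List.mem_map] at hp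
  obtain ⟨k, hk, rfl⟩ := hp
  have hk36 := hS k hk
  have hmem : ∀ k', k' ∈ S → q ≠ (10 * I + k' % 6, 10 * J + k' / 6) := by
    rintro k' hk' rfl
    exact hq (List.mem_toFinset.mpr (List.mem_map.mpr ⟨k', hk', rfl⟩))
  have hd := G.deg _ _ (hpres k hk36)
  unfold degU at hd
  rw [if_neg (by omega), if_neg (by omega)] at hd
  have hin : inDeg (fun k => uh (10 * I + k % 6) (10 * J + k / 6))
      (fun k => uv (10 * I + k % 6) (10 * J + k / 6)) S k = 2 := by
    unfold closedB at hcl
    rw [List.all_eq_true] at hcl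
    have := hcl k hk
    simpa using this
  unfold inDeg at hin
  beta_reduce at hin
  -- compare term by term
  have tle : ∀ a b : Bool, (a && b).toNat ≤ a.toNat := by decide
  have t1 : (uh (10 * I + k % 6) (10 * J + k / 6) &&
      ((k % 6 != 5) && S.contains (k + 1))).toNat ≤
      (uh (10 * I + k % 6) (10 * J + k / 6)).toNat := tle _ _
  have t2 : (uv (10 * I + k % 6) (10 * J + k / 6) && S.contains (k + 6)).toNat ≤
      (uv (10 * I + k % 6) (10 * J + k / 6)).toNat := tle _ _
  have t3 : ((k % 6 != 0) && (uh (10 * I + (k - 1) % 6) (10 * J + (k - 1) / 6) &&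
      S.contains (k - 1))).toNat ≤ (uh (10 * I + k % 6 - 1) (10 * J + k / 6)).toNat ∧
      (uh (10 * I + k % 6 - 1) (10 * J + k / 6) = true →
        ((k % 6 != 0) && (uh (10 * I + (k - 1) % 6) (10 * J + (k - 1) / 6) &&
        S.contains (k - 1))).toNat = 1 → k % 6 ≠ 0 ∧ k - 1 ∈ S) := by
    by_cases h0 : k % 6 = 0
    · have : (k % 6 != 0) = false := by rw [h0]; rfl
      rw [this]
      simp
    · have e1 : (k - 1) % 6 = k % 6 - 1 := by omega
      have e2 : (k - 1) / 6 = k / 6 := by omega
      have e3 : 10 * I + (k % 6 - 1) = 10 * I + k % 6 - 1 := by omega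
      have : (k % 6 != 0) = true := by simp [h0]
      rw [this, e1, e2, e3, Bool.true_and]
      refine ⟨tle _ _, fun h1 h2 => ⟨h0, ?_⟩⟩
      rw [h1, Bool.true_and] at h2
      by_contra hc
      rw [← List.contains_iff_mem, Bool.not_eq_true] at hc
      rw [hc] at h2
      exact absurd h2 (by decide)
  have t4 : (Nat.ble 6 k && (uv (10 * I + (k - 6) % 6) (10 * J + (k - 6) / 6) &&
      S.contains (k - 6))).toNat ≤ (uv (10 * I + k % 6) (10 * J + k / 6 - 1)).toNat ∧
      (uv (10 * I + k % 6) (10 * J + k / 6 - 1) = true →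
        (Nat.ble 6 k && (uv (10 * I + (k - 6) % 6) (10 * J + (k - 6) / 6) &&
        S.contains (k - 6))).toNat = 1 → 6 ≤ k ∧ k - 6 ∈ S) := by
    by_cases h0 : 6 ≤ k
    · have e1 : (k - 6) % 6 = k % 6 := by omega
      have e2 : (k - 6) / 6 = k / 6 - 1 := by omega
      have e3 : 10 * J + (k / 6 - 1) = 10 * J + k / 6 - 1 := by omega
      have : Nat.ble 6 k = true := by rw [Nat.ble_eq]; exact h0
      rw [this, e1, e2, e3, Bool.true_and]
      refine ⟨tle _ _, fun h1 h2 => ⟨h0, ?_⟩⟩
      rw [h1, Bool.true_and] at h2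
      by_contra hc
      rw [← List.contains_iff_mem, Bool.not_eq_true] at hc
      rw [hc] at h2
      exact absurd h2 (by decide)
    · have : Nat.ble 6 k = false := by
        rw [← Bool.not_eq_true, Nat.ble_eq]; exact h0
      rw [this]
      simp
  have s1 : (uh (10 * I + k % 6) (10 * J + k / 6) &&
      ((k % 6 != 5) && S.contains (k + 1))).toNat =
      (uh (10 * I + k % 6) (10 * J + k / 6)).toNat := by
    have := t3.1; have := t4.1; omega
  have s2 : (uv (10 * I + k % 6) (10 * J + k / 6) && S.contains (k + 6)).toNat =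
      (uv (10 * I + k % 6) (10 * J + k / 6)).toNat := by
    have := t3.1; have := t4.1; omega
  have s3 : ((k % 6 != 0) && (uh (10 * I + (k - 1) % 6) (10 * J + (k - 1) / 6) &&
      S.contains (k - 1))).toNat = (uh (10 * I + k % 6 - 1) (10 * J + k / 6)).toNat := by
    have := t3.1; have := t4.1; omega
  have s4 : (Nat.ble 6 k && (uv (10 * I + (k - 6) % 6) (10 * J + (k - 6) / 6) &&
      S.contains (k - 6))).toNat = (uv (10 * I + k % 6) (10 * J + k / 6 - 1)).toNat := by
    have := t3.1; have := t4.1; omega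
  unfold adjU at hadj
  rcases hadj with ⟨hh, hu⟩ | ⟨hh, hu⟩ | ⟨hh, hu⟩ | ⟨hh, hu⟩
  · rw [hu, Bool.true_and] at s1
    have hb : ((k % 6 != 5) && S.contains (k + 1)) = true := by
      cases h : ((k % 6 != 5) && S.contains (k + 1))
      · rw [h] at s1; exact absurd s1 (by decide)
      · rfl
    rw [Bool.and_eq_true, List.contains_iff_mem] at hb
    have h5 : k % 6 ≠ 5 := by simpa using hb.1
    apply hmem _ hb.2
    rw [hh]
    have e1 : (k + 1) % 6 = k % 6 + 1 := by omega
    have e2 : (k + 1) / 6 = k / 6 := by omega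
    rw [e1, e2]
    rfl
  · obtain ⟨q1, q2⟩ := q
    simp only [Prod.mk.injEq] at hh hu
    have e0 : q1 = 10 * I + k % 6 - 1 := by omega
    rw [e0, ← hh.2] at hu
    rw [hu] at s3
    obtain ⟨h0, hm⟩ := t3.2 hu s3
    apply hmem _ hm
    have e1 : (k - 1) % 6 = k % 6 - 1 := by omega
    have e2 : (k - 1) / 6 = k / 6 := by omega
    rw [e1, e2, e0, ← hh.2]
    rw [Prod.mk.injEq]
    exact ⟨by omega, rfl⟩
  · rw [hu, Bool.true_and] at s2
    have hb : S.contains (k + 6) = true := by
      cases h : S.contains (k + 6)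
      · rw [h] at s2; exact absurd s2 (by decide)
      · rfl
    rw [List.contains_iff_mem] at hb
    apply hmem _ hb
    rw [hh]
    have e1 : (k + 6) % 6 = k % 6 := by omega
    have e2 : (k + 6) / 6 = k / 6 + 1 := by omega
    rw [e1, e2]
    rfl
  · obtain ⟨q1, q2⟩ := q
    simp only [Prod.mk.injEq] at hh hu
    have e0 : q2 = 10 * J + k / 6 - 1 := by omega
    rw [e0, ← hh.1] at hu
    rw [hu] at s4
    obtain ⟨h0, hm⟩ := t4.2 hu s4
    apply hmem _ hm
    have e1 : (k - 6) % 6 = k % 6 := by omega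
    have e2 : (k - 6) / 6 = k / 6 - 1 := by omega
    rw [e1, e2, e0, ← hh.1]
    rw [Prod.mk.injEq]
    exact ⟨rfl, by omega⟩

theorem D5 : specD5 := by
  intro N uh uv G I J hI hIJ hJ hL hB hR hT
  have hty : ty N I J = .X := ty_X hI hIJ hJ
  obtain ⟨R, hRd⟩ : ∃ R : ℕ → Bool, R = fun k => uh (10 * I + k % 6) (10 * J + k / 6) := ⟨_, rfl⟩
  obtain ⟨U, hUd⟩ : ∃ U : ℕ → Bool, U = fun k => uv (10 * I + k % 6) (10 * J + k / 6) := ⟨_, rfl⟩
  have hloc : ∀ (m : Ty → ℕ) (k : ℕ), k < 36 → rd m N (10 * I + k % 6) (10 * J + k / 6) =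
      (m .X).testBit (10 * (k / 6) + k % 6) := by
    intro m k hk
    rw [rd_loc _ _ _ _ _ _ (by omega) (by omega), hty]
  have hleft : ∀ y, y < 10 → y ≠ 1 → y ≠ 2 → uh (10 * I - 1) (10 * J + y) = false := by
    intro y hy h1 h2
    rw [← Bool.not_eq_true]
    intro hc
    have h3 := G.alwH _ _ hc
    have e : 10 * I - 1 = 10 * (I - 1) + 9 := by omega
    rw [e, rd_loc _ _ _ _ _ _ (by omega) hy] at h3
    have := portH_tab _ ⟨y, hy⟩ h3
    simp only at this
    omega
  have hbot : ∀ x, x < 10 → x ≠ 1 → x ≠ 2 → uv (10 * I + x) (10 * J - 1) = false := by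
    intro x hx h1 h2
    rw [← Bool.not_eq_true]
    intro hc
    have h3 := G.alwV _ _ hc
    have e : 10 * J - 1 = 10 * (J - 1) + 9 := by omega
    rw [e, rd_loc _ _ _ _ _ _ hx (by omega)] at h3
    have := portV_tab _ ⟨x, hx⟩ h3
    simp only at this
    omega
  have hc : ∀ k < 36, Cons R U k (vr (uv (10 * I + 2) (10 * J - 1)) (uh (10 * I - 1) (10 * J + 2)) k) := by
    intro k hk
    have hdeg : degU uh uv (10 * I + k % 6) (10 * J + k / 6) = 2 := by
      apply G.deg
      unfold pres
      rw [hloc _ k hk]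
      exact coreX_tab ⟨k % 6, by omega⟩ ⟨k / 6, by omega⟩
    refine ⟨?_, ?_, ?_, ?_, ?_, ?_, ?_⟩
    · intro h
      rw [hRd] at h
      have := G.alwH _ _ h
      rw [hloc _ k hk] at this
      exact this
    · intro h
      rw [hRd]
      apply G.frcH
      rw [hloc _ k hk]
      exact h
    · intro h
      rw [hUd] at h
      have := G.alwV _ _ h
      rw [hloc _ k hk] at this
      exact this
    · intro h
      rw [hUd]
      apply G.frcV
      rw [hloc _ k hk]
      exact h
    · intro h
      simp only [vr, bne_iff_ne, ne_eq] at h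
      omega
    · intro h
      simp only [vr, bne_iff_ne, ne_eq] at h
      omega
    · unfold degU at hdeg
      rw [if_neg (by omega), if_neg (by omega)] at hdeg
      have hl : (if k % 6 = 0 then (if k / 6 = 1 then (!uh (10 * I - 1) (10 * J + 2)).toNat
          else if k / 6 = 2 then (uh (10 * I - 1) (10 * J + 2)).toNat else 0) else 0) +
          ((k % 6 != 0) && R (k - 1)).toNat =
          (uh (10 * I + k % 6 - 1) (10 * J + k / 6)).toNat := by
        by_cases h0 : k % 6 = 0
        · have e0 : (k % 6 != 0) = false := by rw [h0]; rfl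
          rw [if_pos h0, e0, Bool.false_and, Bool.toNat_false, Nat.add_zero, h0,
            Nat.add_zero (10 * I)]
          by_cases h1 : k / 6 = 1
          · rw [if_pos h1, h1, hL]
          · rw [if_neg h1]
            by_cases h2 : k / 6 = 2
            · rw [if_pos h2, h2]
            · rw [if_neg h2, hleft (k / 6) (by omega) h1 h2]
              rfl
        · have e0 : (k % 6 != 0) = true := by simp [h0]
          have e1 : (k - 1) % 6 = k % 6 - 1 := by omega
          have e2 : (k - 1) / 6 = k / 6 := by omega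
          have e3 : 10 * I + (k % 6 - 1) = 10 * I + k % 6 - 1 := by omega
          rw [if_neg h0, e0, Bool.true_and, Nat.zero_add, hRd]
          simp only
          rw [e1, e2, e3]
      have hb : (if k / 6 = 0 then (if k % 6 = 1 then (!uv (10 * I + 2) (10 * J - 1)).toNat
          else if k % 6 = 2 then (uv (10 * I + 2) (10 * J - 1)).toNat else 0) else 0) +
          ((k / 6 != 0) && U (k - 6)).toNat =
          (uv (10 * I + k % 6) (10 * J + k / 6 - 1)).toNat := by
        by_cases h0 : k / 6 = 0
        · have e0 : (k / 6 != 0) = false := by rw [h0]; rfl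
          rw [if_pos h0, e0, Bool.false_and, Bool.toNat_false, Nat.add_zero, h0,
            Nat.add_zero (10 * J)]
          by_cases h1 : k % 6 = 1
          · rw [if_pos h1, h1, hB]
          · rw [if_neg h1]
            by_cases h2 : k % 6 = 2
            · rw [if_pos h2, h2]
            · rw [if_neg h2, hbot (k % 6) (by omega) h1 h2]
              rfl
        · have e0 : (k / 6 != 0) = true := by simp [h0]
          have e1 : (k - 6) % 6 = k % 6 := by omega
          have e2 : (k - 6) / 6 = k / 6 - 1 := by omega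
          have e3 : 10 * J + (k / 6 - 1) = 10 * J + k / 6 - 1 := by omega
          rw [if_neg h0, e0, Bool.true_and, Nat.zero_add, hUd]
          simp only
          rw [e1, e2, e3]
      have eR : R k = uh (10 * I + k % 6) (10 * J + k / 6) := by rw [hRd]
      have eU : U k = uv (10 * I + k % 6) (10 * J + k / 6) := by rw [hUd]
      simp only [vr]
      rw [eR, eU]
      omega
  have hr : R 11 ≠ R 17 := by
    rw [hRd]
    simp only [show (11 : ℕ) % 6 = 5 from rfl, show (11 : ℕ) / 6 = 1 from rfl,
      show (17 : ℕ) % 6 = 5 from rfl, show (17 : ℕ) / 6 = 2 from rfl]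
    rw [hR]
    cases uh (10 * I + 5) (10 * J + 2) <;> decide
  have hu : U 31 ≠ U 32 := by
    rw [hUd]
    simp only [show (31 : ℕ) % 6 = 1 from rfl, show (31 : ℕ) / 6 = 5 from rfl,
      show (32 : ℕ) % 6 = 2 from rfl, show (32 : ℕ) / 6 = 5 from rfl]
    rw [hT]
    cases uv (10 * I + 2) (10 * J + 5) <;> decide
  rcases core _ _ R U hc hr hu with h | ⟨S, hS, hcl⟩
  · rw [hRd, hUd] at h
    simp only [show (17 : ℕ) % 6 = 5 from rfl, show (17 : ℕ) / 6 = 2 from rfl,
      show (32 : ℕ) % 6 = 2 from rfl, show (32 : ℕ) / 6 = 5 from rfl,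
      show (6 : ℕ) % 6 = 0 from rfl, show (6 : ℕ) / 6 = 1 from rfl, Nat.add_zero] at h
    exact h
  · exfalso
    rw [hRd, hUd] at hcl
    exact no_closed G hI hIJ hJ S (cyc6_lt S hS).1 (cyc6_lt S hS).2 hcl

end Pool.Agent.Helper38.ELP
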