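import Pool.Agent.Helper38.ELP.Grid

/-! Local facts about the state tables, by kernel evaluation. -/

namespace Pool.Agent.Helper38.ELP

theorem st_ok : ∀ t : Ty, ∀ v h : Bool, valid t v h = true → ∀ k : Fin 100,
    ((stH t v h).testBit k = true → (alH t).testBit k = true) ∧
    ((stV t v h).testBit k = true → (alV t).testBit k = true) ∧
    ((foH t).testBit k = true → (stH t v h).testBit k = true) ∧
    ((foV t).testBit k = true → (stV t v h).testBit k = true) := by decide +kernel

/-- local degree, the left and bottom ports supplying the incoming edges -/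
def ldeg (t : Ty) (v h : Bool) (x y : ℕ) : ℕ :=
  ((stH t v h).testBit (10 * y + x)).toNat + ((stV t v h).testBit (10 * y + x)).toNat +
  (if x = 0 then (if hasL t && (y == 1 + h.toNat) then 1 else 0)
    else ((stH t v h).testBit (10 * y + (x - 1))).toNat) +
  (if y = 0 then (if hasB t && (x == 1 + v.toNat) then 1 else 0)
    else ((stV t v h).testBit (10 * (y - 1) + x)).toNat)

theorem st_deg : ∀ t : Ty, ∀ v h : Bool, valid t v h = true → ∀ x y : Fin 10,
    (presM t).testBit (10 * y + x) = true → ldeg t v h x y = 2 := by decide +kernel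

theorem st_port : ∀ t : Ty, ∀ v h : Bool, valid t v h = true → ∀ y : Fin 10,
    (stH t v h).testBit (10 * y + 9) = (hasR t && decide (y.val = 1 + h.toNat)) ∧
    (stV t v h).testBit (90 + y) = (hasT t && decide (y.val = 1 + v.toNat)) := by decide +kernel

theorem ty_out {N I J : ℕ} (h : N + 1 < I ∨ N + 1 < J) : ty N I J = .E := by
  unfold ty
  rw [if_pos h]

theorem rd_out {m : Ty → ℕ} (hm : m .E = 0) {N x y : ℕ} (h : 10 * (N + 2) ≤ x ∨ 10 * (N + 2) ≤ y) :
    rd m N x y = false := by
  unfold rd
  rw [ty_out (by omega), hm, Nat.zero_testBit]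

theorem mem_Vset {N : ℕ} {p : ℕ × ℕ} : p ∈ Vset N ↔ pres N p.1 p.2 = true := by
  unfold Vset
  rw [Finset.mem_filter, Finset.mem_product, Finset.mem_range, Finset.mem_range]
  refine ⟨fun h => h.2, fun h => ⟨?_, h⟩⟩
  by_contra hc
  rw [not_and_or, not_lt, not_lt] at hc
  have := rd_out (m := presM) rfl hc
  unfold pres at h
  rw [this] at h
  exact Bool.noConfusion h

end Pool.Agent.Helper38.ELP
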