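import Pool.Agent.Helper38.ELP.Asm
import Pool.Agent.Helper38.ELP.Conn
import Pool.Agent.Helper38.ELP.D5
import Pool.Agent.Helper68.ELP.D12
import Pool.Agent.Helper68.ELP.D8
import Pool.Agent.Helper68.ELP.D10
import Pool.Agent.Helper9.ELP.D3
import Pool.Agent.Helper9.ELP.D7
import Pool.Agent.Helper78.ELP.D4
import Pool.Agent.Helper78.ELP.D6

/-! The combinatorial theorem, all modules together. -/

namespace Pool.Agent.Helper38.ELP

/-- D6 -/
theorem D6 : specD6 :=
  Pool.Agent.Helper78.ELP.d6 Pool.Agent.Helper9.ELP.d3 Pool.Agent.Helper78.ELP.d4 D5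

/-- D10 -/
theorem D10 : specD10 :=
  Pool.Agent.Helper68.ELP.d10 Pool.Agent.Helper9.ELP.d7 Pool.Agent.Helper68.ELP.d8 D9

/-- the combinatorial theorem -/
theorem D_all : specD :=
  D Pool.Agent.Helper68.ELP.d1 Pool.Agent.Helper68.ELP.d2 D6 Pool.Agent.Helper68.ELP.d8 D10

end Pool.Agent.Helper38.ELP
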