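import Pool.Agent.Helper38.ELP.Cfg
import Pool.Agent.Helper38.ELP.Spec
import Pool.Agent.Helper68.LP.Gadget

/-! Module D: assembly of the combinatorial theorem. -/

namespace Pool.Agent.Helper38.ELP

section W

variable (M : ℕ)

/-- the edge which reads the variable `k` -/
def eK (k : ℕ) : ℕ × ℕ := (9, 10 * (2 * (k + 1) + 1) + 2)

/-- the edge which reads the product of the variables `k < l` -/
def rK (k l : ℕ) : ℕ × ℕ := (10 * (2 * (k + 1) + 1), 10 * (2 * (l + 1) + 1) + 1)

/-- basic weights -/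
def bH (x y : ℕ) : ℤ :=
  if rd foH (2 * M + 2) x y = true then -((M : ℤ) + 1)
  else if rd alH (2 * M + 2) x y = true then 0 else (M : ℤ) + 1

/-- basic weights -/
def bV (x y : ℕ) : ℤ :=
  if rd foV (2 * M + 2) x y = true then -((M : ℤ) + 1)
  else if rd alV (2 * M + 2) x y = true then 0 else (M : ℤ) + 1

variable {M}

open Classical in
/-- reading weights -/
noncomputable def rH (a : Finset (Fin M)) (x y : ℕ) : ℤ :=
  if ∃ k ∈ a, (x, y) = eK (k : Fin M) then -1 else 0

open Classical in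
/-- reading weights -/
noncomputable def rV (a : Finset (Fin M)) (x y : ℕ) : ℤ :=
  if ∃ k ∈ a, ∃ l ∈ a, k < l ∧ (x, y) = rK (k : Fin M) (l : Fin M) then 2 else 0

open Classical in
theorem rH_sum (a : Finset (Fin M)) (x y : ℕ) :
    rH a x y = -∑ k : Fin M, if k ∈ a ∧ (x, y) = eK k then (1 : ℤ) else 0 := by
  unfold rH
  split_ifs with h
  · obtain ⟨k, hk, he⟩ := h
    rw [Finset.sum_eq_single k]
    · rw [if_pos ⟨hk, he⟩]
    · intro l _ hl
      rw [if_neg]
      rintro ⟨_, he2⟩
      apply hl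
      rw [he] at he2
      simp only [eK, Prod.mk.injEq, true_and] at he2
      exact Fin.ext (by omega)
    · intro hc; exact absurd (Finset.mem_univ k) hc
  · rw [Finset.sum_eq_zero, neg_zero]
    intro k _
    rw [if_neg]
    rintro ⟨h1, h2⟩
    exact h ⟨k, h1, h2⟩

open Classical in
theorem rV_sum (a : Finset (Fin M)) (x y : ℕ) :
    rV a x y = ∑ k : Fin M, ∑ l : Fin M,
      if (k < l ∧ k ∈ a ∧ l ∈ a) ∧ (x, y) = rK k l then (2 : ℤ) else 0 := by
  unfold rV
  split_ifs with h
  · obtain ⟨k, hk, l, hl, hkl, he⟩ := h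
    rw [Finset.sum_eq_single k, Finset.sum_eq_single l]
    · rw [if_pos ⟨⟨hkl, hk, hl⟩, he⟩]
    · intro l' _ hl'
      rw [if_neg]
      rintro ⟨_, he2⟩
      apply hl'
      rw [he] at he2
      simp only [rK, Prod.mk.injEq] at he2
      exact Fin.ext (by omega)
    · intro hc; exact absurd (Finset.mem_univ l) hc
    · intro k' _ hk'
      apply Finset.sum_eq_zero
      intro l' _
      rw [if_neg]
      rintro ⟨_, he2⟩
      apply hk'
      rw [he] at he2
      simp only [rK, Prod.mk.injEq] at he2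
      exact Fin.ext (by omega)
    · intro hc; exact absurd (Finset.mem_univ k) hc
  · symm
    apply Finset.sum_eq_zero
    intro k _
    apply Finset.sum_eq_zero
    intro l _
    rw [if_neg]
    rintro ⟨⟨h1, h2, h3⟩, h4⟩
    exact h ⟨k, h2, l, h3, h1, h4⟩

open Classical in
/-- sum of the reading weights over the used horizontal edges -/
theorem sum_rH (V : Finset (ℕ × ℕ)) (u : ℕ → ℕ → Bool) (hV : ∀ x y, u x y = true → (x, y) ∈ V)
    (a : Finset (Fin M)) :
    ∑ p ∈ V, (if u p.1 p.2 = true then rH a p.1 p.2 else 0) =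
      -∑ k : Fin M, if k ∈ a ∧ u (eK k).1 (eK k).2 = true then (1 : ℤ) else 0 := by
  have h1 : ∀ p ∈ V, (if u p.1 p.2 = true then rH a p.1 p.2 else 0) =
      -∑ k : Fin M, if k ∈ a ∧ u p.1 p.2 = true ∧ p = eK k then (1 : ℤ) else 0 := by
    intro p _
    rw [rH_sum]
    by_cases h : u p.1 p.2 = true
    · simp only [h, if_true, true_and]
    · simp [h]
  rw [Finset.sum_congr rfl h1, Finset.sum_neg_distrib, Finset.sum_comm]
  congr 1
  refine Finset.sum_congr rfl fun k _ => ?_
  by_cases h : k ∈ a ∧ u (eK k).1 (eK k).2 = true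
  · rw [if_pos h, Finset.sum_eq_single (eK k)]
    · rw [if_pos ⟨h.1, h.2, rfl⟩]
    · intro p _ hp
      rw [if_neg]
      rintro ⟨_, _, h3⟩
      exact hp h3
    · intro hc; exact absurd (hV _ _ h.2) hc
  · rw [if_neg h]
    apply Finset.sum_eq_zero
    intro p _
    rw [if_neg]
    rintro ⟨h1, h2, h3⟩
    apply h
    rw [h3] at h2
    exact ⟨h1, h2⟩

open Classical in
/-- sum of the reading weights over the used vertical edges -/
theorem sum_rV (V : Finset (ℕ × ℕ)) (u : ℕ → ℕ → Bool) (hV : ∀ x y, u x y = true → (x, y) ∈ V)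
    (a : Finset (Fin M)) :
    ∑ p ∈ V, (if u p.1 p.2 = true then rV a p.1 p.2 else 0) =
      ∑ k : Fin M, ∑ l : Fin M,
        if (k < l ∧ k ∈ a ∧ l ∈ a) ∧ u (rK k l).1 (rK k l).2 = true then (2 : ℤ) else 0 := by
  have h1 : ∀ p ∈ V, (if u p.1 p.2 = true then rV a p.1 p.2 else 0) =
      ∑ k : Fin M, ∑ l : Fin M,
        if (k < l ∧ k ∈ a ∧ l ∈ a) ∧ u p.1 p.2 = true ∧ p = rK k l then (2 : ℤ) else 0 := by
    intro p _
    rw [rV_sum]
    by_cases h : u p.1 p.2 = true
    · simp only [h, if_true, true_and]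
    · simp [h]
  rw [Finset.sum_congr rfl h1, Finset.sum_comm]
  refine Finset.sum_congr rfl fun k _ => ?_
  rw [Finset.sum_comm]
  refine Finset.sum_congr rfl fun l _ => ?_
  by_cases h : (k < l ∧ k ∈ a ∧ l ∈ a) ∧ u (rK k l).1 (rK k l).2 = true
  · rw [if_pos h, Finset.sum_eq_single (rK k l)]
    · rw [if_pos ⟨h.1, h.2, rfl⟩]
    · intro p _ hp
      rw [if_neg]
      rintro ⟨_, _, h3⟩
      exact hp h3
    · intro hc; exact absurd (hV _ _ h.2) hc
  · rw [if_neg h]
    apply Finset.sum_eq_zero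
    intro p _
    rw [if_neg]
    rintro ⟨h1, h2, h3⟩
    apply h
    rw [h3] at h2
    exact ⟨h1, h2⟩

end W

theorem masks_ok : ∀ t : Ty, ∀ k : Fin 100,
    ((foH t).testBit k = true → (alH t).testBit k = true ∧ (presM t).testBit k = true) ∧
    ((foV t).testBit k = true → (alV t).testBit k = true ∧ (presM t).testBit k = true) := by
  decide +kernel

theorem foH_ok {N x y : ℕ} (h : rd foH N x y = true) : rd alH N x y = true ∧ pres N x y = true := by
  unfold pres rd at *
  exact (masks_ok _ ⟨10 * (y % 10) + x % 10, by omega⟩).1 h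

theorem foV_ok {N x y : ℕ} (h : rd foV N x y = true) : rd alV N x y = true ∧ pres N x y = true := by
  unfold pres rd at *
  exact (masks_ok _ ⟨10 * (y % 10) + x % 10, by omega⟩).2 h

theorem posN_mem (N : ℕ) (i : Fin (Vset N).card) :
    ∃ p ∈ Vset N, posN N i = ((p.1 : ℤ), (p.2 : ℤ)) :=
  ⟨((Vset N).equivFin.symm i : ℕ × ℕ), ((Vset N).equivFin.symm i).2, rfl⟩

theorem posN_inj (N : ℕ) : Function.Injective (posN N) := by
  intro i j h
  unfold posN at h
  simp only [Prod.mk.injEq, Nat.cast_inj] at h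
  have : (Vset N).equivFin.symm i = (Vset N).equivFin.symm j := Subtype.ext (Prod.ext h.1 h.2)
  exact (Vset N).equivFin.symm.injective this

theorem useH_mem {N : ℕ} (σ : Equiv.Perm (Fin (Vset N).card)) (x y : ℕ)
    (h : useH (posN N) σ x y = true) : (x, y) ∈ Vset N := by
  unfold useH at h
  rw [decide_eq_true_eq] at h
  obtain ⟨i, ⟨h1, -⟩ | ⟨-, h1⟩⟩ := h
  · obtain ⟨p, hp, he⟩ := posN_mem N (σ i)
    rw [he] at h1
    simp only [Prod.mk.injEq, Nat.cast_inj] at h1
    rw [← h1.1, ← h1.2]; exact hp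
  · obtain ⟨p, hp, he⟩ := posN_mem N (σ (finRotate _ i))
    rw [he] at h1
    simp only [Prod.mk.injEq, Nat.cast_inj] at h1
    rw [← h1.1, ← h1.2]; exact hp

theorem useV_mem {N : ℕ} (σ : Equiv.Perm (Fin (Vset N).card)) (x y : ℕ)
    (h : useV (posN N) σ x y = true) : (x, y) ∈ Vset N := by
  unfold useV at h
  rw [decide_eq_true_eq] at h
  obtain ⟨i, ⟨h1, -⟩ | ⟨-, h1⟩⟩ := h
  · obtain ⟨p, hp, he⟩ := posN_mem N (σ i)
    rw [he] at h1
    simp only [Prod.mk.injEq, Nat.cast_inj] at h1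
    rw [← h1.1, ← h1.2]; exact hp
  · obtain ⟨p, hp, he⟩ := posN_mem N (σ (finRotate _ i))
    rw [he] at h1
    simp only [Prod.mk.injEq, Nat.cast_inj] at h1
    rw [← h1.1, ← h1.2]; exact hp

theorem card_ge (M : ℕ) : 3 ≤ (Vset (2 * M + 2)).card := by
  have h : ∀ x y : ℕ, x < 10 → y < 10 → (presM .RT).testBit (10 * y + x) = true →
      (x, y) ∈ Vset (2 * M + 2) := by
    intro x y hx hy hxy
    rw [mem_Vset]
    have := rd_loc presM (2 * M + 2) 0 0 x y hx hy
    rw [ty_left_even (by omega) rfl, hxy] at this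
    simpa [pres] using this
  have hsub : ({(1, 1), (2, 1), (1, 2)} : Finset (ℕ × ℕ)) ⊆ Vset (2 * M + 2) := by
    intro p hp
    simp only [Finset.mem_insert, Finset.mem_singleton] at hp
    rcases hp with rfl | rfl | rfl
    · exact h 1 1 (by omega) (by omega) (by decide)
    · exact h 2 1 (by omega) (by omega) (by decide)
    · exact h 1 2 (by omega) (by omega) (by decide)
  exact (Finset.card_le_card hsub).trans' (by decide)

theorem card_le (M : ℕ) : (Vset (2 * M + 2)).card ≤ 400 * (M + 2) ^ 2 := by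
  unfold Vset
  refine (Finset.card_filter_le _ _).trans ?_
  rw [Finset.card_product, Finset.card_range]
  have : 10 * (2 * M + 2 + 2) * (10 * (2 * M + 2 + 2)) = 400 * (M + 2) ^ 2 := by ring
  rw [this]

section Base

variable (M : ℕ)

/-- basic cost of a set of used edges -/
def base (uh uv : ℕ → ℕ → Bool) : ℤ :=
  ∑ p ∈ Vset (2 * M + 2), ((if uh p.1 p.2 = true then bH M p.1 p.2 else 0) +
    (if uv p.1 p.2 = true then bV M p.1 p.2 else 0))

/-- minimal basic cost -/
def m0 : ℤ :=
  ∑ p ∈ Vset (2 * M + 2), ((if rd foH (2 * M + 2) p.1 p.2 = true then -((M : ℤ) + 1) else 0) +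
    (if rd foV (2 * M + 2) p.1 p.2 = true then -((M : ℤ) + 1) else 0))

variable {M}

theorem termH (uh : ℕ → ℕ → Bool) (x y : ℕ) :
    (if rd foH (2 * M + 2) x y = true then -((M : ℤ) + 1) else 0) ≤
      (if uh x y = true then bH M x y else 0) ∧
    ((if uh x y = true then bH M x y else 0) <
      (if rd foH (2 * M + 2) x y = true then -((M : ℤ) + 1) else 0) + ((M : ℤ) + 1) →
      (uh x y = true → rd alH (2 * M + 2) x y = true) ∧
      (rd foH (2 * M + 2) x y = true → uh x y = true)) := by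
  unfold bH
  by_cases h1 : uh x y = true <;> by_cases h2 : rd foH (2 * M + 2) x y = true <;>
    by_cases h3 : rd alH (2 * M + 2) x y = true <;> simp [h1, h2, h3]
  all_goals first | omega | exact (h3 (foH_ok h2).1).elim

theorem termV (uv : ℕ → ℕ → Bool) (x y : ℕ) :
    (if rd foV (2 * M + 2) x y = true then -((M : ℤ) + 1) else 0) ≤
      (if uv x y = true then bV M x y else 0) ∧
    ((if uv x y = true then bV M x y else 0) <
      (if rd foV (2 * M + 2) x y = true then -((M : ℤ) + 1) else 0) + ((M : ℤ) + 1) →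
      (uv x y = true → rd alV (2 * M + 2) x y = true) ∧
      (rd foV (2 * M + 2) x y = true → uv x y = true)) := by
  unfold bV
  by_cases h1 : uv x y = true <;> by_cases h2 : rd foV (2 * M + 2) x y = true <;>
    by_cases h3 : rd alV (2 * M + 2) x y = true <;> simp [h1, h2, h3]
  all_goals first | omega | exact (h3 (foV_ok h2).1).elim

theorem base_low (uh uv : ℕ → ℕ → Bool) : m0 M ≤ base M uh uv ∧
    (base M uh uv < m0 M + ((M : ℤ) + 1) → ∀ p ∈ Vset (2 * M + 2),
      ((uh p.1 p.2 = true → rd alH (2 * M + 2) p.1 p.2 = true) ∧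
        (rd foH (2 * M + 2) p.1 p.2 = true → uh p.1 p.2 = true)) ∧
      ((uv p.1 p.2 = true → rd alV (2 * M + 2) p.1 p.2 = true) ∧
        (rd foV (2 * M + 2) p.1 p.2 = true → uv p.1 p.2 = true))) := by
  have h1 : m0 M ≤ base M uh uv :=
    Finset.sum_le_sum fun p _ => add_le_add (termH uh p.1 p.2).1 (termV uv p.1 p.2).1
  refine ⟨h1, fun hlt p hp => ?_⟩
  have h2 : ((if uh p.1 p.2 = true then bH M p.1 p.2 else 0) +
      (if uv p.1 p.2 = true then bV M p.1 p.2 else 0)) -
      ((if rd foH (2 * M + 2) p.1 p.2 = true then -((M : ℤ) + 1) else 0) +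
      (if rd foV (2 * M + 2) p.1 p.2 = true then -((M : ℤ) + 1) else 0)) ≤
      base M uh uv - m0 M := by
    unfold base m0
    rw [← Finset.sum_sub_distrib]
    exact Finset.single_le_sum (f := fun p : ℕ × ℕ =>
      ((if uh p.1 p.2 = true then bH M p.1 p.2 else 0) +
      (if uv p.1 p.2 = true then bV M p.1 p.2 else 0)) -
      ((if rd foH (2 * M + 2) p.1 p.2 = true then -((M : ℤ) + 1) else 0) +
      (if rd foV (2 * M + 2) p.1 p.2 = true then -((M : ℤ) + 1) else 0)))
      (fun q _ => sub_nonneg.mpr (add_le_add (termH uh q.1 q.2).1 (termV uv q.1 q.2).1)) hp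
  have h3 := (termH (M := M) uh p.1 p.2).1
  have h4 := (termV (M := M) uv p.1 p.2).1
  exact ⟨(termH uh p.1 p.2).2 (by linarith), (termV uv p.1 p.2).2 (by linarith)⟩

theorem base_good {uh uv : ℕ → ℕ → Bool} (hg : Good (2 * M + 2) uh uv) : base M uh uv = m0 M := by
  unfold base m0
  refine Finset.sum_congr rfl fun p _ => ?_
  have h1 := hg.alwH p.1 p.2
  have h2 := hg.frcH p.1 p.2
  have h3 := hg.alwV p.1 p.2
  have h4 := hg.frcV p.1 p.2
  unfold bH bV
  congr 1
  · by_cases g1 : uh p.1 p.2 = true <;> by_cases g2 : rd foH (2 * M + 2) p.1 p.2 = true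
    · simp [g1, g2]
    · simp [g1, g2, h1 g1]
    · exact absurd (h2 g2) g1
    · simp [g1, g2]
  · by_cases g1 : uv p.1 p.2 = true <;> by_cases g2 : rd foV (2 * M + 2) p.1 p.2 = true
    · simp [g1, g2]
    · simp [g1, g2, h3 g1]
    · exact absurd (h4 g2) g1
    · simp [g1, g2]

end Base

section Main

variable {M : ℕ}

/-- horizontal weights for the set `a` -/
noncomputable def wgH (a : Finset (Fin M)) (x y : ℤ) : ℤ :=
  bH M x.toNat y.toNat + rH a x.toNat y.toNat

/-- vertical weights for the set `a` -/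
noncomputable def wgV (a : Finset (Fin M)) (x y : ℤ) : ℤ :=
  bV M x.toNat y.toNat + rV a x.toNat y.toNat

theorem wgH_le (a : Finset (Fin M)) (x y : ℤ) : |wgH a x y| ≤ M + 3 := by
  unfold wgH bH rH
  rw [abs_le]
  split_ifs <;> constructor <;> omega

theorem wgV_le (a : Finset (Fin M)) (x y : ℤ) : |wgV a x y| ≤ M + 3 := by
  unfold wgV bV rV
  rw [abs_le]
  split_ifs <;> constructor <;> omega

open Classical in
theorem weight_eq (h2 : specD2) (a : Finset (Fin M)) (σ : Equiv.Perm (Fin (Vset (2 * M + 2)).card))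
    (hu : UnitTour (posN (2 * M + 2)) σ) :
    tourW (wgH a) (wgV a) (posN (2 * M + 2)) σ =
      base M (useH (posN (2 * M + 2)) σ) (useV (posN (2 * M + 2)) σ) +
      (-(∑ k : Fin M, if k ∈ a ∧ useH (posN (2 * M + 2)) σ (eK k).1 (eK k).2 = true
          then (1 : ℤ) else 0) +
        ∑ k : Fin M, ∑ l : Fin M, if (k < l ∧ k ∈ a ∧ l ∈ a) ∧
          useV (posN (2 * M + 2)) σ (rK k l).1 (rK k l).2 = true then (2 : ℤ) else 0) := by
  rw [h2 _ σ _ _ (card_ge M) hu, ← sum_rH _ _ (useH_mem σ) a, ← sum_rV _ _ (useV_mem σ) a,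
    ← Finset.sum_add_distrib]
  unfold base
  rw [← Finset.sum_add_distrib]
  refine Finset.sum_congr rfl fun p _ => ?_
  unfold wgH wgV
  simp only [Int.toNat_natCast]
  by_cases g1 : useH (posN (2 * M + 2)) σ p.1 p.2 = true <;>
    by_cases g2 : useV (posN (2 * M + 2)) σ p.1 p.2 = true <;> (simp [g1, g2]; try ring)

open Classical in
/-- the weight of a good tour -/
theorem weight_good (h2 : specD2) (h6 : specD6) (a : Finset (Fin M))
    (σ : Equiv.Perm (Fin (Vset (2 * M + 2)).card)) (hu : UnitTour (posN (2 * M + 2)) σ)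
    (hg : Good (2 * M + 2) (useH (posN (2 * M + 2)) σ) (useV (posN (2 * M + 2)) σ)) :
    tourW (wgH a) (wgV a) (posN (2 * M + 2)) σ = m0 M - 1 +
      (1 - ∑ k : Fin M, if k ∈ a ∧ useH (posN (2 * M + 2)) σ (eK k).1 (eK k).2 = true
          then (1 : ℤ) else 0) ^ 2 := by
  rw [weight_eq h2 a σ hu, base_good hg]
  have key := Pool.Agent.Helper68.LP.pairs_sum (m := M)
    (fun k => decide (k ∈ a ∧ useH (posN (2 * M + 2)) σ (eK k).1 (eK k).2 = true))
  simp only [decide_eq_true_eq] at key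
  have e : (∑ k : Fin M, ∑ l : Fin M, if (k < l ∧ k ∈ a ∧ l ∈ a) ∧
          useV (posN (2 * M + 2)) σ (rK k l).1 (rK k l).2 = true then (2 : ℤ) else 0) =
      ∑ i : Fin M, ∑ j : Fin M, if i < j ∧
        (i ∈ a ∧ useH (posN (2 * M + 2)) σ (eK i).1 (eK i).2 = true) ∧
        (j ∈ a ∧ useH (posN (2 * M + 2)) σ (eK j).1 (eK j).2 = true) then (2 : ℤ) else 0 := by
    refine Finset.sum_congr rfl fun k _ => Finset.sum_congr rfl fun l _ => ?_
    by_cases hkl : k < l
    · have h := h6 M _ _ hg (k + 1) (l + 1) (by omega)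
        (by have := Fin.lt_def.mp hkl; omega) (by have := l.2; omega)
      unfold rK eK
      simp only
      rw [h]
      by_cases g1 : k ∈ a <;> by_cases g2 : l ∈ a <;> simp [hkl, g1, g2]
    · simp [hkl]
  rw [e]
  linarith

/-- cheap tours are good -/
theorem good_of_cheap (h1 : specD1) (σ : Equiv.Perm (Fin (Vset (2 * M + 2)).card))
    (hu : UnitTour (posN (2 * M + 2)) σ)
    (hlt : base M (useH (posN (2 * M + 2)) σ) (useV (posN (2 * M + 2)) σ) < m0 M + ((M : ℤ) + 1)) :
    Good (2 * M + 2) (useH (posN (2 * M + 2)) σ) (useV (posN (2 * M + 2)) σ) := by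
  obtain ⟨hd, hc⟩ := h1 _ σ (card_ge M) hu
  have hb := (base_low _ _).2 hlt
  exact {
    alwH := fun x y h => (hb (x, y) (useH_mem σ x y h)).1.1 h
    alwV := fun x y h => (hb (x, y) (useV_mem σ x y h)).2.1 h
    frcH := fun x y h => (hb (x, y) (mem_Vset.mpr (foH_ok h).2)).1.2 h
    frcV := fun x y h => (hb (x, y) (mem_Vset.mpr (foV_ok h).2)).2.2 h
    deg := hd
    nocyc := hc }

theorem weight_low (h1 : specD1) (h2 : specD2) (h6 : specD6) (a : Finset (Fin M))
    (σ : Equiv.Perm (Fin (Vset (2 * M + 2)).card)) (hu : UnitTour (posN (2 * M + 2)) σ) :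
    m0 M - 1 ≤ tourW (wgH a) (wgV a) (posN (2 * M + 2)) σ := by
  classical
  by_cases hlt : base M (useH (posN (2 * M + 2)) σ) (useV (posN (2 * M + 2)) σ) <
      m0 M + ((M : ℤ) + 1)
  · rw [weight_good h2 h6 a σ hu (good_of_cheap h1 σ hu hlt)]
    exact le_add_of_nonneg_right (sq_nonneg _)
  · rw [weight_eq h2 a σ hu]
    have e1 : (∑ k : Fin M, if k ∈ a ∧ useH (posN (2 * M + 2)) σ (eK k).1 (eK k).2 = true
          then (1 : ℤ) else 0) ≤ M := by
      calc _ ≤ ∑ _k : Fin M, (1 : ℤ) := Finset.sum_le_sum fun k _ => by split_ifs <;> norm_num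
        _ = M := by simp
    have e2 : 0 ≤ ∑ k : Fin M, ∑ l : Fin M, if (k < l ∧ k ∈ a ∧ l ∈ a) ∧
          useV (posN (2 * M + 2)) σ (rK k l).1 (rK k l).2 = true then (2 : ℤ) else 0 :=
      Finset.sum_nonneg fun k _ => Finset.sum_nonneg fun l _ => by split_ifs <;> norm_num
    linarith

open Classical in
/-- the bits of the configuration of a set -/
noncomputable def bits (S : Finset (Fin M)) (k : ℕ) : Bool :=
  decide (k = M + 1 ∨ ∃ i ∈ S, k = (i : Fin M).val + 1)

theorem bits_zero (S : Finset (Fin M)) : bits S 0 = false := by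
  unfold bits
  rw [decide_eq_false_iff_not]
  rintro (h | ⟨i, -, h⟩) <;> omega

theorem bits_last (S : Finset (Fin M)) : bits S (M + 1) = true := by
  unfold bits
  rw [decide_eq_true_eq]
  exact Or.inl rfl

theorem bits_succ (S : Finset (Fin M)) (k : Fin M) : bits S (k + 1) = true ↔ k ∈ S := by
  unfold bits
  rw [decide_eq_true_eq]
  constructor
  · rintro (h | ⟨i, hi, h⟩)
    · have := k.2; omega
    · have : k = i := Fin.ext (by omega)
      rw [this]; exact hi
  · intro h
    exact Or.inr ⟨k, h, rfl⟩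

theorem read_bit (S : Finset (Fin M)) (k : Fin M) :
    uH (2 * M + 2) (bits S) (eK k).1 (eK k).2 = true ↔ k ∈ S := by
  rw [← bits_succ]
  have hJ : 2 * ((k : ℕ) + 1) + 1 ≤ 2 * M + 1 := by have := k.2; omega
  have e := uH_loc (2 * M + 2) (bits S) 0 (2 * ((k : ℕ) + 1) + 1) 9 2 (by omega) (by omega)
  rw [Nat.mul_zero, Nat.zero_add] at e
  unfold eK
  rw [e]
  have ht : ty (2 * M + 2) 0 (2 * ((k : ℕ) + 1) + 1) = .RB := ty_left_odd (by omega) (by omega)
  have hv := valid_cfg (bits_zero S) (bits_last S) 0 (2 * ((k : ℕ) + 1) + 1)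
  have h2 := (st_port _ _ _ hv ⟨2, by omega⟩).1
  simp only at h2
  rw [show 10 * 2 + 9 = 10 * 2 + 9 from rfl, h2, ht]
  have hh : hb (2 * M + 2) (bits S) 0 (2 * ((k : ℕ) + 1) + 1) = bits S (k + 1) := by
    unfold hb wbit
    rw [if_neg (by omega), if_neg (by omega)]
    congr 1
    omega
  rw [hh]
  cases bits S (k + 1) <;> simp [hasR]

theorem D (h1 : specD1) (h2 : specD2) (h6 : specD6) (h8 : specD8) (h10 : specD10) : specD := by
  intro M _
  classical
  choose T hT using fun S : Finset (Fin M) => h10 M (bits S) (bits_zero S) (bits_last S)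
  refine ⟨(Vset (2 * M + 2)).card, posN (2 * M + 2), wgH, wgV, T, card_ge M, card_le M,
    posN_inj _, ?_, fun a x y => ⟨wgH_le a x y, wgV_le a x y⟩, fun S => (hT S).1, ?_⟩
  · intro i
    obtain ⟨p, hp, he⟩ := posN_mem (2 * M + 2) i
    rw [he]
    unfold Vset at hp
    rw [Finset.mem_filter, Finset.mem_product, Finset.mem_range, Finset.mem_range] at hp
    simp only
    omega
  · intro a
    refine ⟨m0 M - 1, fun σ hu => weight_low h1 h2 h6 a σ hu, fun S => ?_⟩
    obtain ⟨hu, hH, hV⟩ := hT S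
    obtain ⟨c1, c2, c3, c4, _⟩ := h8 M (bits S) (bits_zero S) (bits_last S)
    obtain ⟨hd, hc⟩ := h1 _ (T S) (card_ge M) hu
    have hg : Good (2 * M + 2) (useH (posN (2 * M + 2)) (T S)) (useV (posN (2 * M + 2)) (T S)) := by
      exact {
        alwH := fun x y h => by rw [hH] at h; exact (c1 x y h).1
        alwV := fun x y h => by rw [hV] at h; exact (c2 x y h).1
        frcH := fun x y h => by rw [hH]; exact c3 x y h
        frcV := fun x y h => by rw [hV]; exact c4 x y h
        deg := hd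
        nocyc := hc }
    rw [weight_good h2 h6 a (T S) hu hg, hH]
    congr 2
    have : (∑ k : Fin M, if k ∈ a ∧ uH (2 * M + 2) (bits S) (eK k).1 (eK k).2 = true
        then (1 : ℤ) else 0) = ((a ∩ S).card : ℤ) := by
      simp only [read_bit]
      rw [Finset.sum_boole]
      congr 2
      ext k
      simp
    rw [this]

end Main

end Pool.Agent.Helper38.ELP
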