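import Pool.Agent.Helper38.ELP.Local

/-! Facts on the arrangement of the cells: evaluation of `ty`, validity of the bits, neighbouring
cells fit together. -/

namespace Pool.Agent.Helper38.ELP

section Ty

variable {N I J : ℕ}

theorem ty_left_even (hJ : J ≤ N + 1) (he : J % 2 = 0) : ty N 0 J = .RT := by
  unfold ty; rw [if_neg (by omega), if_pos rfl, if_pos he]

theorem ty_left_odd (hJ : J ≤ N + 1) (he : J % 2 = 1) : ty N 0 J = .RB := by
  unfold ty; rw [if_neg (by omega), if_pos rfl, if_neg (by omega)]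

theorem ty_top_even (hI : I ≤ N + 1) (h1 : 1 ≤ I) (he : I % 2 = 0) : ty N I (N + 1) = .RB := by
  unfold ty; rw [if_neg (by omega), if_neg (by omega), if_pos rfl, if_pos he]

theorem ty_top_odd (hI : I ≤ N + 1) (he : I % 2 = 1) : ty N I (N + 1) = .LB := by
  unfold ty; rw [if_neg (by omega), if_neg (by omega), if_pos rfl, if_neg (by omega)]

theorem ty_corner : ty N (N + 1) 0 = .LT := by
  unfold ty
  rw [if_neg (by omega), if_neg (by omega), if_neg (by omega), if_pos rfl, if_pos rfl]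

theorem ty_right (h1 : 1 ≤ J) (hJ : J ≤ N) : ty N (N + 1) J = .Vs := by
  unfold ty
  rw [if_neg (by omega), if_neg (by omega), if_neg (by omega), if_pos rfl, if_neg (by omega)]

theorem ty_bottom (h1 : 1 ≤ I) (hI : I ≤ N) : ty N I 0 = .Hs := by
  unfold ty
  rw [if_neg (by omega), if_neg (by omega), if_neg (by omega), if_neg (by omega), if_pos rfl]

theorem ty_X (h1 : 1 ≤ I) (hIJ : I < J) (hJ : J ≤ N) : ty N I J = .X := by
  unfold ty
  rw [if_neg (by omega), if_neg (by omega), if_neg (by omega), if_neg (by omega),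
    if_neg (by omega), if_pos hIJ]

theorem ty_diag (h1 : 1 ≤ I) (hI : I ≤ N) : ty N I I = .LT := by
  unfold ty
  rw [if_neg (by omega), if_neg (by omega), if_neg (by omega), if_neg (by omega),
    if_neg (by omega), if_neg (by omega), if_pos rfl]

theorem ty_empty (h1 : 1 ≤ J) (hJI : J < I) (hI : I ≤ N) : ty N I J = .E := by
  unfold ty
  rw [if_neg (by omega), if_neg (by omega), if_neg (by omega), if_neg (by omega),
    if_neg (by omega), if_neg (by omega), if_neg (by omega)]

/-- The classification of the cells of the array. -/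
theorem ty_cases (hN : N % 2 = 0) (I J : ℕ) :
    (N + 1 < I ∨ N + 1 < J) ∨
    (I = 0 ∧ J ≤ N + 1 ∧ J % 2 = 0) ∨ (I = 0 ∧ J ≤ N + 1 ∧ J % 2 = 1) ∨
    (J = N + 1 ∧ 1 ≤ I ∧ I ≤ N + 1 ∧ I % 2 = 0) ∨ (J = N + 1 ∧ I ≤ N + 1 ∧ I % 2 = 1) ∨
    (I = N + 1 ∧ J = 0) ∨ (I = N + 1 ∧ 1 ≤ J ∧ J ≤ N) ∨ (J = 0 ∧ 1 ≤ I ∧ I ≤ N) ∨
    (1 ≤ I ∧ I < J ∧ J ≤ N) ∨ (I = J ∧ 1 ≤ I ∧ I ≤ N) ∨ (1 ≤ J ∧ J < I ∧ I ≤ N) := by
  omega

/-- right and left sides of neighbouring cells match -/
theorem hasR_eq (hN : N % 2 = 0) (I J : ℕ) : hasR (ty N I J) = hasL (ty N (I + 1) J) := by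
  rcases ty_cases hN I J with h | ⟨rfl, h1, h2⟩ | ⟨rfl, h1, h2⟩ | ⟨rfl, h1, h2, h3⟩ | ⟨rfl, h1, h2⟩ |
    ⟨rfl, rfl⟩ | ⟨rfl, h1, h2⟩ | ⟨rfl, h1, h2⟩ | ⟨h1, h2, h3⟩ | ⟨rfl, h1, h2⟩ | ⟨h1, h2, h3⟩
  · rw [ty_out h, ty_out (by omega)]; rfl
  · rw [ty_left_even h1 h2]
    by_cases hJ : J = 0
    · subst hJ
      by_cases h0 : N = 0
      · subst h0; rfl
      · rw [ty_bottom (by omega) (by omega)]; rfl
    · by_cases hJ1 : J = 1
      · omega
      · rw [ty_X (by omega) (by omega) (by omega)]; rfl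
  · rw [ty_left_odd h1 h2]
    by_cases hJ : J = N + 1
    · subst hJ; rw [ty_top_odd (by omega) (by omega)]; rfl
    · by_cases hJ1 : J = 1
      · subst hJ1; rw [ty_diag (by omega) (by omega)]; rfl
      · rw [ty_X (by omega) (by omega) (by omega)]; rfl
  · rw [ty_top_even h2 h1 h3, ty_top_odd (by omega) (by omega)]; rfl
  · rw [ty_top_odd h1 h2]
    by_cases hI : I = N + 1
    · subst hI; rw [ty_out (by omega)]; rfl
    · rw [ty_top_even (by omega) (by omega) (by omega)]; rfl
  · rw [ty_corner, ty_out (by omega)]; rfl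
  · rw [ty_right h1 h2, ty_out (by omega)]; rfl
  · rw [ty_bottom h1 h2]
    by_cases hI : I = N
    · subst hI; rw [ty_corner]; rfl
    · rw [ty_bottom (by omega) (by omega)]; rfl
  · rw [ty_X h1 h2 h3]
    by_cases hI : I + 1 = J
    · subst hI; rw [ty_diag (by omega) (by omega)]; rfl
    · rw [ty_X (by omega) (by omega) (by omega)]; rfl
  · rw [ty_diag h1 h2]
    by_cases hI : I = N
    · subst hI; rw [ty_right (by omega) (by omega)]; rfl
    · rw [ty_empty (by omega) (by omega) (by omega)]; rfl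
  · rw [ty_empty h1 h2 h3]
    by_cases hI : I = N
    · subst hI; rw [ty_right (by omega) (by omega)]; rfl
    · rw [ty_empty (by omega) (by omega) (by omega)]; rfl

/-- top and bottom sides of neighbouring cells match -/
theorem hasT_eq (hN : N % 2 = 0) (I J : ℕ) : hasT (ty N I J) = hasB (ty N I (J + 1)) := by
  rcases ty_cases hN I J with h | ⟨rfl, h1, h2⟩ | ⟨rfl, h1, h2⟩ | ⟨rfl, h1, h2, h3⟩ | ⟨rfl, h1, h2⟩ |
    ⟨rfl, rfl⟩ | ⟨rfl, h1, h2⟩ | ⟨rfl, h1, h2⟩ | ⟨h1, h2, h3⟩ | ⟨rfl, h1, h2⟩ | ⟨h1, h2, h3⟩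
  · rw [ty_out h, ty_out (by omega)]; rfl
  · rw [ty_left_even h1 h2, ty_left_odd (by omega) (by omega)]; rfl
  · rw [ty_left_odd h1 h2]
    by_cases hJ : J = N + 1
    · subst hJ; rw [ty_out (by omega)]; rfl
    · rw [ty_left_even (by omega) (by omega)]; rfl
  · rw [ty_top_even h2 h1 h3, ty_out (by omega)]; rfl
  · rw [ty_top_odd h1 h2, ty_out (by omega)]; rfl
  · rw [ty_corner]
    by_cases h0 : N = 0
    · subst h0; rfl
    · rw [ty_right (by omega) (by omega)]; rfl
  · rw [ty_right h1 h2]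
    by_cases hJ : J = N
    · subst hJ; rw [ty_top_odd (by omega) (by omega)]; rfl
    · rw [ty_right (by omega) (by omega)]; rfl
  · rw [ty_bottom h1 h2]
    by_cases hI : I = 1
    · subst hI; rw [ty_diag (by omega) (by omega)]; rfl
    · rw [ty_empty (by omega) (by omega) (by omega)]; rfl
  · rw [ty_X h1 h2 h3]
    by_cases hJ : J = N
    · subst hJ
      rcases Nat.mod_two_eq_zero_or_one I with hi | hi
      · rw [ty_top_even (by omega) (by omega) hi]; rfl
      · rw [ty_top_odd (by omega) hi]; rfl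
    · rw [ty_X (by omega) (by omega) (by omega)]; rfl
  · rw [ty_diag h1 h2]
    by_cases hI : I = N
    · subst hI; rw [ty_top_even (by omega) (by omega) (by omega)]; rfl
    · rw [ty_X (by omega) (by omega) (by omega)]; rfl
  · rw [ty_empty h1 h2 h3]
    by_cases hJ : I = J + 1
    · subst hJ; rw [ty_diag (by omega) (by omega)]; rfl
    · rw [ty_empty (by omega) (by omega) (by omega)]; rfl

end Ty

section Bits

variable {M : ℕ} {b : ℕ → Bool}

/-- the bits of every cell form a valid state -/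
theorem valid_cfg (h0 : b 0 = false) (h1 : b (M + 1) = true) (I J : ℕ) :
    valid (ty (2 * M + 2) I J) (vb b I J) (hb (2 * M + 2) b I J) = true := by
  have e1 : (2 * M + 2 + 1) / 2 = M + 1 := by omega
  have e2 : (2 * M + 2 + 1) % 2 = 1 := by omega
  rcases ty_cases (N := 2 * M + 2) (by omega) I J with h | ⟨rfl, h2, h3⟩ | ⟨rfl, h2, h3⟩ |
    ⟨rfl, h2, h3, h4⟩ | ⟨rfl, h2, h3⟩ | ⟨rfl, rfl⟩ | ⟨rfl, h2, h3⟩ | ⟨rfl, h2, h3⟩ | ⟨h2, h3, h4⟩ |
    ⟨rfl, h2, h3⟩ | ⟨h2, h3, h4⟩
  · rw [ty_out h]; rfl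
  · rw [ty_left_even h2 h3]
    have : ¬ J = 2 * M + 2 + 1 := by omega
    simp [vb, hb, valid, wbit, h3, this]
  · rw [ty_left_odd h2 h3]
    by_cases hJ : J = 2 * M + 2 + 1
    · subst hJ; simp [vb, hb, valid, h0, e1, h1]
    · simp [vb, hb, valid, wbit, hJ, h3]
  · rw [ty_top_even h3 h2 h4]
    have : ¬ I = 0 := by omega
    simp [vb, hb, valid, wbit, this, h4]
  · rw [ty_top_odd h2 h3]
    have : ¬ I = 0 := by omega
    simp [vb, hb, valid, wbit, this, h3]
  · rw [ty_corner]
    simp [vb, hb, valid, wbit, e1, e2, h0, h1]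
  · rw [ty_right h2 h3]; rfl
  · rw [ty_bottom h2 h3]; rfl
  · rw [ty_X h2 h3 h4]; rfl
  · rw [ty_diag h2 h3]
    have e3 : ¬ I = 0 := by omega
    have e4 : ¬ I = 2 * M + 2 + 1 := by omega
    simp [vb, hb, valid, e3, e4]
  · rw [ty_empty h2 h3 h4]; rfl

/-- the horizontal bit passes from a cell to its right neighbour -/
theorem hb_right {N : ℕ} (hN : N % 2 = 0) (I J : ℕ) (h : hasR (ty N I J) = true) :
    hb N b (I + 1) J = hb N b I J := by
  unfold hb
  by_cases hJ : J = N + 1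
  · rw [if_pos hJ, if_pos hJ]
    have hI : I % 2 = 0 := by
      subst hJ
      rcases Nat.mod_two_eq_zero_or_one I with hi | hi
      · exact hi
      · by_cases h2 : I ≤ N + 1
        · rw [ty_top_odd h2 hi] at h; exact Bool.noConfusion h
        · rw [ty_out (by omega)] at h; exact Bool.noConfusion h
    have : (I + 1) / 2 = I / 2 := by omega
    rw [this]
  · rw [if_neg hJ, if_neg hJ]

/-- the vertical bit passes from a cell to its upper neighbour -/
theorem vb_up {N : ℕ} (hN : N % 2 = 0) (I J : ℕ) (h : hasT (ty N I J) = true) :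
    vb b I (J + 1) = vb b I J := by
  unfold vb
  by_cases hI : I = 0
  · rw [if_pos hI, if_pos hI]
    have hJ : J % 2 = 0 := by
      subst hI
      rcases Nat.mod_two_eq_zero_or_one J with hi | hi
      · exact hi
      · by_cases h2 : J ≤ N + 1
        · rw [ty_left_odd h2 hi] at h; exact Bool.noConfusion h
        · rw [ty_out (by omega)] at h; exact Bool.noConfusion h
    have : (J + 1) / 2 = J / 2 := by omega
    rw [this]
  · rw [if_neg hI, if_neg hI]

/-- the used horizontal edges of the configuration at local coordinates -/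
theorem uH_loc (N : ℕ) (b : ℕ → Bool) (I J x y : ℕ) (hx : x < 10) (hy : y < 10) :
    uH N b (10 * I + x) (10 * J + y) =
      (stH (ty N I J) (vb b I J) (hb N b I J)).testBit (10 * y + x) := by
  unfold uH
  have e1 : (10 * I + x) / 10 = I := by omega
  have e2 : (10 * J + y) / 10 = J := by omega
  have e3 : (10 * I + x) % 10 = x := by omega
  have e4 : (10 * J + y) % 10 = y := by omega
  rw [e1, e2, e3, e4]

/-- the used vertical edges of the configuration at local coordinates -/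
theorem uV_loc (N : ℕ) (b : ℕ → Bool) (I J x y : ℕ) (hx : x < 10) (hy : y < 10) :
    uV N b (10 * I + x) (10 * J + y) =
      (stV (ty N I J) (vb b I J) (hb N b I J)).testBit (10 * y + x) := by
  unfold uV
  have e1 : (10 * I + x) / 10 = I := by omega
  have e2 : (10 * J + y) / 10 = J := by omega
  have e3 : (10 * I + x) % 10 = x := by omega
  have e4 : (10 * J + y) % 10 = y := by omega
  rw [e1, e2, e3, e4]

/-- reading a mask at local coordinates -/
theorem rd_loc (m : Ty → ℕ) (N I J x y : ℕ) (hx : x < 10) (hy : y < 10) :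
    rd m N (10 * I + x) (10 * J + y) = (m (ty N I J)).testBit (10 * y + x) := by
  unfold rd
  have e1 : (10 * I + x) / 10 = I := by omega
  have e2 : (10 * J + y) / 10 = J := by omega
  have e3 : (10 * I + x) % 10 = x := by omega
  have e4 : (10 * J + y) % 10 = y := by omega
  rw [e1, e2, e3, e4]

end Bits

end Pool.Agent.Helper38.ELP
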