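import Pool.Agent.Helper38.ELP.Cfg
import Pool.Agent.Helper38.ELP.Spec

/-! Module D5: the core of the crossing cell, by a verified enumeration. -/

namespace Pool.Agent.Helper38.ELP.Core

open Pool.Agent.Helper38.ELP

/-- data of a vertex of the core -/
structure VR where
  /-- number of used port edges at the vertex -/
  ex : ℕ
  /-- does the vertex have a left neighbour in the core -/
  ul : Bool
  /-- does the vertex have a lower neighbour in the core -/
  ud : Bool
  /-- is the edge to the right allowed -/
  aR : Bool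
  /-- is the edge to the right forced -/
  fR : Bool
  /-- is the edge up allowed -/
  aU : Bool
  /-- is the edge up forced -/
  fU : Bool

/-- local test at a vertex -/
def okV (v : VR) (d : ℕ) (r u : Bool) : Bool :=
  (!r || v.aR) && (!v.fR || r) && (!u || v.aU) && (!v.fU || u) && (d + r.toNat + u.toNat == 2)

/-- append the two new edges to the register -/
def stp (a : ℕ) (r u : Bool) : ℕ := 2 ^ 2 * a + (2 * r.toNat + u.toNat)

/-- number of used old edges at a vertex -/
def dg (v : VR) (a : ℕ) : ℕ := v.ex + (v.ul && a.testBit 1).toNat + (v.ud && a.testBit 10).toNat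

/-- the enumeration -/
def chk (leaf : ℕ → Bool) : List VR → ℕ → Bool
  | [], a => leaf a
  | v :: vs, a =>
    (!okV v (dg v a) false false || chk leaf vs (stp a false false)) &&
    (!okV v (dg v a) false true || chk leaf vs (stp a false true)) &&
    (!okV v (dg v a) true false || chk leaf vs (stp a true false)) &&
    (!okV v (dg v a) true true || chk leaf vs (stp a true true))

/-- the register `a` holds the edges of the first `k` vertices -/
def Reg (R U : ℕ → Bool) (k a : ℕ) : Prop :=
  ∀ j, j < k → a.testBit (2 * j + 1) = R (k - 1 - j) ∧ a.testBit (2 * j) = U (k - 1 - j)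

theorem Reg.step {R U : ℕ → Bool} {k a : ℕ} (h : Reg R U k a) :
    Reg R U (k + 1) (stp a (R k) (U k)) := by
  intro j hj
  unfold stp
  have hlt : 2 * (R k).toNat + (U k).toNat < 2 ^ 2 := by
    cases R k <;> cases U k <;> decide
  rw [Nat.testBit_two_pow_mul_add _ hlt, Nat.testBit_two_pow_mul_add _ hlt]
  rcases Nat.eq_zero_or_pos j with rfl | hj0
  · rw [if_pos (by omega), if_pos (by omega)]
    have : k + 1 - 1 - 0 = k := by omega
    rw [this]
    cases R k <;> cases U k <;> decide
  · obtain ⟨j', rfl⟩ : ∃ j', j = j' + 1 := ⟨j - 1, by omega⟩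
    rw [if_neg (by omega), if_neg (by omega)]
    have e1 : 2 * (j' + 1) + 1 - 2 = 2 * j' + 1 := by omega
    have e2 : 2 * (j' + 1) - 2 = 2 * j' := by omega
    have e3 : k + 1 - 1 - (j' + 1) = k - 1 - j' := by omega
    rw [e1, e2, e3]
    exact h j' (by omega)

/-- the configuration satisfies the local conditions at vertex `k` -/
structure Cons (R U : ℕ → Bool) (k : ℕ) (v : VR) : Prop where
  aR : R k = true → v.aR = true
  fR : v.fR = true → R k = true
  aU : U k = true → v.aU = true
  fU : v.fU = true → U k = true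
  l : v.ul = true → 1 ≤ k
  d : v.ud = true → 6 ≤ k
  deg : v.ex + (v.ul && R (k - 1)).toNat + (v.ud && U (k - 6)).toNat + (R k).toNat +
    (U k).toNat = 2

theorem Cons.ok {R U : ℕ → Bool} {k a : ℕ} {v : VR} (h : Cons R U k v) (hr : Reg R U k a) :
    okV v (dg v a) (R k) (U k) = true := by
  have h1 : (v.ul && a.testBit 1) = (v.ul && R (k - 1)) := by
    cases hl : v.ul
    · rfl
    · have := (hr 0 (h.l hl)).1
      simpa using this
  have h2 : (v.ud && a.testBit 10) = (v.ud && U (k - 6)) := by
    cases hl : v.ud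
    · rfl
    · have hk := h.d hl
      have := (hr 5 (by omega)).2
      rw [show k - 1 - 5 = k - 6 by omega] at this
      simpa using this
  have hd := h.deg
  unfold okV dg
  rw [h1, h2]
  have e1 : (!R k || v.aR) = true := by
    have := h.aR
    cases hR : R k
    · rfl
    · rw [this hR]; rfl
  have e2 : (!v.fR || R k) = true := by
    have := h.fR
    cases hR : v.fR
    · rfl
    · rw [this hR]; rfl
  have e3 : (!U k || v.aU) = true := by
    have := h.aU
    cases hR : U k
    · rfl
    · rw [this hR]; rfl
  have e4 : (!v.fU || U k) = true := by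
    have := h.fU
    cases hR : v.fU
    · rfl
    · rw [this hR]; rfl
  rw [e1, e2, e3, e4, hd]
  rfl

theorem chk_sound (leaf : ℕ → Bool) (R U : ℕ → Bool) : ∀ (vs : List VR) (k a : ℕ), Reg R U k a →
    (∀ i (hi : i < vs.length), Cons R U (k + i) vs[i]) → chk leaf vs a = true →
    ∃ a', Reg R U (k + vs.length) a' ∧ leaf a' = true
  | [], k, a, hr, _, hl => ⟨a, hr, hl⟩
  | v :: vs, k, a, hr, hc, hl => by
    have h0 : Cons R U k v := hc 0 (by simp)
    have hok := h0.ok hr
    have hrec : chk leaf vs (stp a (R k) (U k)) = true := by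
      unfold chk at hl
      simp only [Bool.and_eq_true] at hl
      obtain ⟨⟨⟨l1, l2⟩, l3⟩, l4⟩ := hl
      revert hok
      cases R k <;> cases U k <;> intro hok
      · rw [hok] at l1; simpa using l1
      · rw [hok] at l2; simpa using l2
      · rw [hok] at l3; simpa using l3
      · rw [hok] at l4; simpa using l4
    obtain ⟨a', ha', hl'⟩ := chk_sound leaf R U vs (k + 1) _ hr.step (fun i hi => by
      have := hc (i + 1) (by simpa using hi)
      rw [show k + 1 + i = k + (i + 1) by omega]
      simpa using this) hrec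
    refine ⟨a', ?_, hl'⟩
    rw [List.length_cons, show k + (vs.length + 1) = k + 1 + vs.length by omega]
    exact ha'

/-- number of used edges from `k` to vertices of `S` -/
def inDeg (R U : ℕ → Bool) (S : List ℕ) (k : ℕ) : ℕ :=
  (R k && ((k % 6 != 5) && S.contains (k + 1))).toNat +
  (U k && S.contains (k + 6)).toNat +
  ((k % 6 != 0) && (R (k - 1) && S.contains (k - 1))).toNat +
  (Nat.ble 6 k && (U (k - 6) && S.contains (k - 6))).toNat

/-- every vertex of `S` has two used edges inside `S` -/
def closedB (R U : ℕ → Bool) (S : List ℕ) : Bool := S.all fun k => inDeg R U S k == 2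

/-- the closed sets which occur -/
def cyc6 : List (List ℕ) :=
  [[9, 10, 14, 15, 16, 17, 20, 21, 22, 23, 27, 28, 29, 33, 34, 35],
   [9, 10, 15, 16, 17, 21, 22, 23, 27, 28, 29, 33, 34, 35],
   [13, 14, 19, 20],
   [12, 13, 18, 19],
   [12, 13, 14, 18, 19, 20],
   [22, 23, 27, 28, 29, 33, 34, 35]]

/-- edge to the right, read from the register -/
def Rr (a k : ℕ) : Bool := a.testBit (2 * (35 - k) + 1)

/-- edge up, read from the register -/
def Uu (a k : ℕ) : Bool := a.testBit (2 * (35 - k))

/-- the test at the end of the enumeration -/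
def leaf (v h : Bool) (a : ℕ) : Bool :=
  (Rr a 11 == Rr a 17) || (Uu a 31 == Uu a 32) ||
  ((Rr a 17 == h) && (Uu a 32 == v) && (Uu a 6 == (v && h))) ||
  cyc6.any (fun S => closedB (Rr a) (Uu a) S)

/-- the data of vertex `k` of the core -/
def vr (v h : Bool) (k : ℕ) : VR where
  ex := (if k % 6 = 0 then (if k / 6 = 1 then (!h).toNat else if k / 6 = 2 then h.toNat else 0)
    else 0) +
    (if k / 6 = 0 then (if k % 6 = 1 then (!v).toNat else if k % 6 = 2 then v.toNat else 0) else 0)
  ul := k % 6 != 0
  ud := k / 6 != 0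
  aR := (alH .X).testBit (10 * (k / 6) + k % 6)
  fR := (foH .X).testBit (10 * (k / 6) + k % 6)
  aU := (alV .X).testBit (10 * (k / 6) + k % 6)
  fU := (foV .X).testBit (10 * (k / 6) + k % 6)

theorem chk_ok : ∀ v h : Bool, chk (leaf v h) ((List.range 36).map (vr v h)) 0 = true := by
  decide +kernel

theorem cyc6_lt : ∀ S ∈ cyc6, (∀ k ∈ S, k < 36) ∧ S ≠ [] := by decide

theorem core (v h : Bool) (R U : ℕ → Bool) (hc : ∀ k < 36, Cons R U k (vr v h k))
    (hr : R 11 ≠ R 17) (hu : U 31 ≠ U 32) :
    (R 17 = h ∧ U 32 = v ∧ U 6 = (v && h)) ∨ ∃ S ∈ cyc6, closedB R U S = true := by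
  obtain ⟨a, ha, hl⟩ := chk_sound (leaf v h) R U ((List.range 36).map (vr v h)) 0 0
    (fun j hj => by omega) (fun i hi => by
      simp only [List.length_map, List.length_range] at hi
      simp only [List.getElem_map, List.getElem_range, Nat.zero_add]
      exact hc i hi) (chk_ok v h)
  simp only [List.length_map, List.length_range, Nat.zero_add] at ha
  have hR : ∀ k, k < 36 → Rr a k = R k := by
    intro k hk
    have := (ha (35 - k) (by omega)).1
    rw [show 36 - 1 - (35 - k) = k by omega] at this
    exact this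
  have hU : ∀ k, k < 36 → Uu a k = U k := by
    intro k hk
    have := (ha (35 - k) (by omega)).2
    rw [show 36 - 1 - (35 - k) = k by omega] at this
    exact this
  unfold leaf at hl
  rw [hR 11 (by omega), hR 17 (by omega), hU 31 (by omega), hU 32 (by omega), hU 6 (by omega)] at hl
  simp only [Bool.or_eq_true, beq_iff_eq, Bool.and_eq_true, List.any_eq_true] at hl
  rcases hl with ((h1 | h1) | h1) | h1
  · exact absurd h1 hr
  · exact absurd h1 hu
  · exact Or.inl ⟨h1.1.1, h1.1.2, h1.2⟩
  · right
    obtain ⟨S, hS, h2⟩ := h1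
    refine ⟨S, hS, ?_⟩
    unfold closedB at h2 ⊢
    rw [List.all_eq_true] at h2 ⊢
    intro k hk
    have h3 := h2 k hk
    have hk36 := (cyc6_lt S hS).1 k hk
    unfold inDeg at h3 ⊢
    rw [hR k hk36, hU k hk36, hR (k - 1) (by omega), hU (k - 6) (by omega)] at h3
    exact h3

end Pool.Agent.Helper38.ELP.Core
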